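import Pool.Agent.MP_a2aa7d_nt.Main

/-! Determinantal quartic surfaces near the Hessian of a cubic surface. -/

set_option autoImplicit false

namespace Pool.Agent.MP_a2aa7d_nt

open Polynomial Finset Matrix

/-- contraction of the first two slots of an integer tensor -/
def con {R : Type} [CommRing R] (T : Fin 4 → Fin 4 → Fin 4 → ℤ) (x y : Fin 4 → R) : Fin 4 → R :=
  fun c => ∑ a, ∑ b, (T a b c : R) * x a * y b

/-- antisymmetrisation -/
def alt (U : Fin 4 → Fin 4 → Fin 4 → ℤ) : Fin 4 → Fin 4 → Fin 4 → ℤ := fun a b c =>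
  U a b c + U b c a + U c a b - U b a c - U a c b - U c b a

/-- cyclic shift of the slots -/
def rot (U : Fin 4 → Fin 4 → Fin 4 → ℤ) : Fin 4 → Fin 4 → Fin 4 → ℤ := fun b c a => U a b c

/-- the two conditions on the reduction -/
structure Good (k : Type) [Field k] (S U : Fin 4 → Fin 4 → Fin 4 → ℤ) : Prop where
  rk : ∀ a b b' : Fin 4 → k, a ≠ 0 → b ≠ 0 → con S a b = 0 → con S a b' = 0 → ∃ t : k, b' = t • b
  nv : ∀ a b : Fin 4 → k, a ≠ 0 → b ≠ 0 → con S a b = 0 → con (alt U) a b ≠ 0

section alg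

variable {R R' : Type} [CommRing R] [CommRing R']

theorem map_con (φ : R →+* R') (T : Fin 4 → Fin 4 → Fin 4 → ℤ) (x y : Fin 4 → R) (c : Fin 4) :
    φ (con T x y c) = con T (fun a => φ (x a)) (fun a => φ (y a)) c := by simp [con]

theorem con_add (S U : Fin 4 → Fin 4 → Fin 4 → ℤ) (π : ℤ) (x y : Fin 4 → R) (c : Fin 4) :
    con (fun a b c => S a b c + π * U a b c) x y c = con S x y c + π * con U x y c := by
  simp only [con, mul_sum, ← sum_add_distrib]
  exact sum_congr rfl fun a _ => sum_congr rfl fun b _ => by push_cast; ring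

theorem con_right (T : Fin 4 → Fin 4 → Fin 4 → ℤ) (x y e : Fin 4 → R) (s : R) (c : Fin 4) :
    con T x (fun a => y a + s * e a) c = con T x y c + s * con T x e c := by
  simp only [con, mul_sum, ← sum_add_distrib]
  exact sum_congr rfl fun a _ => sum_congr rfl fun b _ => by ring

theorem con_smul (T : Fin 4 → Fin 4 → Fin 4 → ℤ) (x y : Fin 4 → R) (s t : R) (c : Fin 4) :
    con T (s • x) (t • y) c = s * t * con T x y c := by
  simp only [con, mul_sum, Pi.smul_apply, smul_eq_mul]
  exact sum_congr rfl fun a _ => sum_congr rfl fun b _ => by ring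

theorem con_comm {S : Fin 4 → Fin 4 → Fin 4 → ℤ} (h : ∀ a b c, S a b c = S b a c)
    (x y : Fin 4 → R) : con S x y = con S y x := by
  ext c
  simp only [con]
  rw [sum_comm]
  exact sum_congr rfl fun a _ => sum_congr rfl fun b _ => by rw [h]; ring

theorem con_alt (U : Fin 4 → Fin 4 → Fin 4 → ℤ) (x y : Fin 4 → R) (c : Fin 4) :
    con (alt U) x y c = (con U x y c - con (rot U) y x c) +
      (con (rot (rot U)) x y c - con U y x c) + (con (rot U) x y c - con (rot (rot U)) y x c) := by
  simp only [con, alt, rot, Fin.sum_univ_four]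
  push_cast
  ring

/-- the matrix with one slot contracted -/
def mat (T : Fin 4 → Fin 4 → Fin 4 → ℤ) (m : Fin 4 → R) : Matrix (Fin 4) (Fin 4) R :=
  Matrix.of fun c a => ∑ b, (T a b c : R) * m b

theorem mat_mulVec (T : Fin 4 → Fin 4 → Fin 4 → ℤ) (m u : Fin 4 → R) :
    mat T m *ᵥ u = con T u m := by
  ext c
  simp only [mat, con, mulVec, dotProduct, of_apply, sum_mul]
  exact sum_congr rfl fun a _ => sum_congr rfl fun b _ => by ring

theorem vecMul_mat (T : Fin 4 → Fin 4 → Fin 4 → ℤ) (m w : Fin 4 → R) :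
    w ᵥ* mat T m = con (rot T) m w := by
  ext a
  simp only [mat, con, rot, vecMul, dotProduct, of_apply, mul_sum]
  rw [sum_comm]
  exact sum_congr rfl fun a _ => sum_congr rfl fun b _ => by ring

theorem ker_step (A : Matrix (Fin 4) (Fin 4) R) (u r : Fin 4 → R) (i : Fin 4) (π : R)
    (hπ : ∀ a, π * a = 0 → a = 0) (hu : A *ᵥ u = 0) (hi : u i = 1) (hw : u ᵥ* A = π • r)
    (hB : IsUnit (A + single i i 1).det) : ∃ e : Fin 4 → R, e i = 0 ∧ e ᵥ* A = -r := by
  have h1 : (-r ᵥ* (A + single i i 1)⁻¹) ᵥ* (A + single i i 1) = -r := by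
    rw [vecMul_vecMul, nonsing_inv_mul _ hB, vecMul_one]
  set e := -r ᵥ* (A + single i i 1)⁻¹
  have h2 : e ᵥ* single i i (1 : R) = Pi.single i (e i) := by
    ext a
    by_cases h : a = i
    · subst h; simp [vecMul, dotProduct, Matrix.single_apply]
    · simp [vecMul, dotProduct, h, Ne.symm h]
  rw [vecMul_add, h2] at h1
  have h3 : r ⬝ᵥ u = 0 := hπ _ (by
    rw [← smul_eq_mul, ← smul_dotProduct, ← hw, ← dotProduct_mulVec, hu, dotProduct_zero])
  have h4 := congrArg (fun z => z ⬝ᵥ u) h1
  simp only [add_dotProduct, ← dotProduct_mulVec, hu, dotProduct_zero, zero_add, neg_dotProduct,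
    h3, neg_zero, single_dotProduct, hi, mul_one] at h4
  exact ⟨e, h4, by simpa [h4] using h1⟩

end alg

theorem det_ne {k : Type} [Field k] {S U : Fin 4 → Fin 4 → Fin 4 → ℤ} (h1 : ∀ a b c, S a b c = S b a c)
    (h2 : rot S = S) (hG : Good k S U) {u m : Fin 4 → k} {i j : Fin 4} (hu : u i = 1) (hm : m j = 1)
    (h : con S u m = 0) : (mat S m + single i i 1).det ≠ 0 := by
  intro h0
  obtain ⟨z, hz0, hz⟩ := Matrix.exists_vecMul_eq_zero_iff.2 h0
  have h3 : z ᵥ* single i i (1 : k) = Pi.single i (z i) := by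
    ext a
    by_cases h : a = i
    · subst h; simp [vecMul, dotProduct, Matrix.single_apply]
    · simp [vecMul, dotProduct, h, Ne.symm h]
  rw [vecMul_add, h3] at hz
  have h4 := congrArg (fun z => z ⬝ᵥ u) hz
  simp only [add_dotProduct, ← dotProduct_mulVec, mat_mulVec, h, dotProduct_zero, zero_add,
    single_dotProduct, hu, mul_one, zero_dotProduct] at h4
  rw [h4, Pi.single_zero, add_zero, vecMul_mat, h2] at hz
  obtain ⟨t, ht⟩ := hG.rk m u z (ne_zero_of hm) (ne_zero_of hu) (con_comm h1 u m ▸ h) hz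
  have h5 := congrFun ht i
  rw [h4, Pi.smul_apply, hu, smul_eq_mul, mul_one] at h5
  exact hz0 (by rw [ht, ← h5, zero_smul])

variable {K : Type} [Field K] {v : AbsoluteValue K ℝ}

/-- evaluation with values in the valuation ring -/
def evI (hv : IsNonarchimedean v) {D ι : Type} (c : ι → D → K) (P : D) : lip hv c →+* ints hv :=
  (ev hv c P).codRestrict (ints hv) fun f => ev_le hv c P f

theorem step4 (hv : IsNonarchimedean v) {D ι : Type} (cc : ι → D → K) {k : Type} [Field k]
    (φ : ints hv →+* k) (hφ : ∀ a, φ a = 0 ↔ v a.1 < 1) {S U₀ : Fin 4 → Fin 4 → Fin 4 → ℤ}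
    (h1 : ∀ a b c, S a b c = S b a c) (h2 : rot S = S) (hG : Good k S U₀) {π : ℤ}
    (hπ0 : (π : K) ≠ 0) (hπ : v π < 1) (U : Fin 4 → Fin 4 → Fin 4 → ℤ) {i j : Fin 4}
    (u m : Fin 4 → lip hv cc) (hu : u i = 1) (hm : m j = 1)
    (h : con (fun a b c => S a b c + π * U a b c) u m = 0) :
    ∃ e u' : Fin 4 → lip hv cc, (∀ a, u' a = u a + π * e a) ∧ u' i = 1 ∧
      con (fun a b c => S a b c + π * rot U a b c) m u' = 0 ∧
      ∀ c, con S m e c = con U u m c - con (rot U) m u c - π * con (rot U) m e c := by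
  have hr : rot (fun a b c => S a b c + π * U a b c) = fun a b c => S a b c + π * rot U a b c := by
    ext a b c
    conv_rhs => rw [← h2]
    rfl
  have hS : ∀ c, con S m u c = -(π * con U u m c) := fun c => by
    have := congrFun h c
    rw [con_add, con_comm h1 u m] at this
    exact eq_neg_of_add_eq_zero_left this
  obtain ⟨e, e1, e2⟩ := ker_step (mat (fun a b c => S a b c + π * U a b c) m) u
    (fun c => con (rot U) m u c - con U u m c) i π (fun a ha => Subtype.ext (funext fun P => by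
      have := congrArg (ev hv cc P) ha
      rw [map_mul, map_intCast, map_zero] at this
      exact (mul_eq_zero.1 this).resolve_left hπ0)) (by rw [mat_mulVec, h]) hu (by
      funext c
      rw [vecMul_mat, hr, con_add, hS, Pi.smul_apply, smul_eq_mul]
      ring) (by
      refine isUnit_lip hv cc _ fun P => le_antisymm (ev_le hv cc P _) (not_lt.1 fun hlt => ?_)
      set ψ := φ.comp (evI hv cc P) with hψ
      have hψπ : (π : k) = 0 := by
        rw [← map_intCast φ, hφ]; simpa using hπ
      have g := det_ne h1 h2 hG (u := fun a => ψ (u a)) (m := fun a => ψ (m a)) (i := i) (j := j)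
        (by simp [hu]) (by simp [hm]) (by
          ext c
          rw [← map_con, con_comm h1, hS, map_neg, map_mul, map_intCast, hψπ]
          simp)
      apply g
      have g2 : ψ (mat (fun a b c => S a b c + π * U a b c) m + single i i 1).det = 0 :=
        (hφ _).2 hlt
      rw [RingHom.map_det] at g2
      rw [← g2]
      congr 1
      ext c a
      simp [mat, hψπ, Matrix.single_apply, apply_ite ψ])
  rw [vecMul_mat, hr] at e2
  have e3 : ∀ c, con S m e c = con U u m c - con (rot U) m u c - π * con (rot U) m e c := fun c => by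
    have := congrFun e2 c
    rw [con_add, Pi.neg_apply] at this
    linear_combination this
  refine ⟨e, fun a => u a + π * e a, fun a => rfl, by simp [hu, e1], ?_, e3⟩
  funext c
  rw [con_right, con_add, con_add, hS, e3]
  simp only [Pi.zero_apply]
  ring

/-- normalised points -/
structure Pt4 (v : AbsoluteValue K ℝ) (T : Fin 4 → Fin 4 → Fin 4 → ℤ) (i j : Fin 4) where
  x : Fin 4 → K
  y : Fin 4 → K
  bx : ∀ a, v (x a) ≤ 1
  by' : ∀ a, v (y a) ≤ 1
  hx : x i = 1
  hy : y j = 1
  h : con T x y = 0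

theorem infinite_Pt4 (hv : IsNonarchimedean v) {k : Type} [Field k]
    (φ : ints hv →+* k) (hφ : ∀ a, φ a = 0 ↔ v a.1 < 1) {S U : Fin 4 → Fin 4 → Fin 4 → ℤ}
    (h1 : ∀ a b c, S a b c = S b a c) (h2 : rot S = S) (hG : Good k S U) {π : ℤ}
    (hπ0 : (π : K) ≠ 0) (hπ : ∀ l : ℕ, l.Prime → v π < v l) {i j : Fin 4}
    (P₀ : Pt4 v (fun a b c => S a b c + π * U a b c) i j) :
    Infinite (Pt4 v (fun a b c => S a b c + π * U a b c) i j) := by
  by_contra hfin
  rw [not_infinite_iff_finite] at hfin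
  have hπ1 : v π < 1 := (hπ 2 Nat.prime_two).trans_le hv.apply_natCast_le_one
  let cc : Fin 4 ⊕ Fin 4 → Pt4 v (fun a b c => S a b c + π * U a b c) i j → K := fun o P =>
    Sum.elim P.x P.y o
  have hinj : ∀ P Q, (∀ o, cc o P = cc o Q) → P = Q := fun P Q h => by
    have e1 : P.x = Q.x := funext fun a => h (Sum.inl a)
    have e2 : P.y = Q.y := funext fun a => h (Sum.inr a)
    cases P; cases Q
    simp only at e1 e2
    subst e1 e2
    rfl
  let x : Fin 4 → lip hv cc := fun a =>
    ⟨fun P => P.x a, fun P => P.bx a, fun _ _ _ _ h => h (Sum.inl a)⟩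
  let y : Fin 4 → lip hv cc := fun a =>
    ⟨fun P => P.y a, fun P => P.by' a, fun _ _ _ _ h => h (Sum.inr a)⟩
  have ext : ∀ f g : lip hv cc, (∀ P, ev hv cc P f = ev hv cc P g) → f = g :=
    fun f g h => Subtype.ext (funext h)
  have hx : x i = 1 := ext _ _ fun P => P.hx
  have hy : y j = 1 := ext _ _ fun P => P.hy
  have st := fun U' i' j' => step4 hv cc φ hφ h1 h2 hG hπ0 hπ1 U' (i := i') (j := j')
  obtain ⟨e0, v2, a0, b0, c0, d0⟩ := st U i j x y hx hy (funext fun c => ext _ _ fun P => by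
    rw [map_con]; exact congrFun P.h c)
  obtain ⟨e1, v3, a1, b1, c1, -⟩ := st _ j i y v2 hy b0 c0
  obtain ⟨e2, v4, a2, b2, c2, d2⟩ := st _ i j v2 v3 b0 b1 c1
  obtain ⟨e3, v5, a3, b3, c3, -⟩ := st _ j i v3 v4 b1 b2 c2
  obtain ⟨e4, v6, a4, b4, c4, d4⟩ := st _ i j v4 v5 b2 b3 c3
  obtain ⟨e5, v7, a5, b5, c5, -⟩ := st _ j i v5 v6 b3 b4 c4
  let g : Pt4 v (fun a b c => S a b c + π * U a b c) i j →
      Pt4 v (fun a b c => S a b c + π * U a b c) i j := fun P =>
    { x := fun a => ev hv cc P (v6 a)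
      y := fun a => ev hv cc P (v7 a)
      bx := fun a => ev_le hv cc P _
      by' := fun a => ev_le hv cc P _
      hx := by rw [b4, map_one]
      hy := by rw [b5, map_one]
      h := funext fun c => by
        rw [← map_con]
        exact (congrArg (ev hv cc P) (congrFun c5 c)).trans (map_zero _) }
  have hg : Cl v cc (v π) g := Cl.of_lip hv fun o => by
    rcases o with a | a
    · refine ⟨e0 a + e2 a + e4 a, fun P => ?_⟩
      show ev hv cc P (v6 a) = ev hv cc P (x a) + _
      rw [a4, a2, a0]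
      simp only [map_add, map_mul, map_intCast]
      ring
    · refine ⟨e1 a + e3 a + e5 a, fun P => ?_⟩
      show ev hv cc P (v7 a) = ev hv cc P (y a) + _
      rw [a5, a3, a1]
      simp only [map_add, map_mul, map_intCast]
      ring
  obtain ⟨Q, hQ⟩ := hg.exists_fixed hv hinj (v.nonneg _) hπ P₀
  set ψ := φ.comp (evI hv cc Q) with hψ
  have hψπ : (π : k) = 0 := by
    rw [← map_intCast φ, hφ]; simpa using hπ1
  have f1 : ∀ a, ψ (e0 a) + ψ (e2 a) + ψ (e4 a) = 0 := fun a => by
    have g1 : ev hv cc Q (v6 a) = ev hv cc Q (x a) := congrFun (congrArg Pt4.x hQ) a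
    rw [a4, a2, a0] at g1
    simp only [map_add, map_mul, map_intCast] at g1
    have g2 : ev hv cc Q (e0 a + e2 a + e4 a) = 0 :=
      mul_left_cancel₀ hπ0 (by simp only [map_add]; linear_combination g1)
    rw [← map_add, ← map_add]
    exact (hφ _).2 (show v (ev hv cc Q _) < 1 by rw [g2]; simp)
  have w2 : (fun a => ψ (v2 a)) = fun a => ψ (x a) := by ext a; simp [a0, hψπ]
  have w3 : (fun a => ψ (v3 a)) = fun a => ψ (y a) := by ext a; simp [a1, hψπ]
  have w4 : (fun a => ψ (v4 a)) = fun a => ψ (x a) := by ext a; simp [a2, a0, hψπ]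
  have w5 : (fun a => ψ (v5 a)) = fun a => ψ (y a) := by ext a; simp [a3, a1, hψπ]
  refine hG.nv (fun a => ψ (x a)) (fun a => ψ (y a)) (ne_zero_of (i := i) (by simp [hx]))
    (ne_zero_of (i := j) (by simp [hy])) (funext fun c => ?_) (funext fun c => ?_)
  · have g1 : con (fun a b c => S a b c + π * U a b c) x y c = 0 := ext _ _ fun P => by
      rw [map_con]; exact congrFun P.h c
    have g2 := congrArg ψ g1
    rw [con_add, map_add, map_mul, map_intCast, hψπ, zero_mul, add_zero, map_con, map_zero] at g2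
    exact g2
  · have g0 := congrArg ψ (d0 c)
    have g2 := congrArg ψ (d2 c)
    have g4 := congrArg ψ (d4 c)
    simp only [map_sub, map_mul, map_intCast, hψπ, zero_mul, sub_zero, map_con, w2, w3, w4,
      w5] at g0 g2 g4
    have g5 : con S (fun a => ψ (y a)) (fun a => ψ (e0 a)) c +
        con S (fun a => ψ (y a)) (fun a => ψ (e2 a)) c +
        con S (fun a => ψ (y a)) (fun a => ψ (e4 a)) c = 0 := by
      simp only [con, ← sum_add_distrib, ← mul_add, f1, mul_zero, sum_const_zero]
    rw [con_alt, Pi.zero_apply, ← g5, g0, g2, g4]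
    rfl

end Pool.Agent.MP_a2aa7d_nt
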