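import Mathlib.Topology.Sheaves.Presheaf
import Pool.Agent.MP_a2aa7d_nt.Quartic

/-! The dichotomy for determinantal quartics, and the example of the Clebsch cubic at two. -/

set_option autoImplicit false

namespace Pool.Agent.MP_a2aa7d_nt

open Polynomial Finset Matrix Projectivization NumberField
open scoped LinearAlgebra.Projectivization

/-- the quartic form `det (x 0 • A 0 + ... + x 3 • A 3)` -/
def qdet {R : Type} [CommRing R] (T : Fin 4 → Fin 4 → Fin 4 → ℤ) (x : Fin 4 → R) : R :=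
  (Matrix.of fun b c => ∑ a, (T a b c : R) * x a).det

/-- the polarisation of the cubic form `∑ x i ^ 2 * x (i + 1)` -/
def cl (a b c : Fin 4) : ℤ :=
  if (a = b ∧ c = a + 1) ∨ (b = c ∧ a = b + 1) ∨ (c = a ∧ b = c + 1) then 1 else 0

theorem qdet_iff {K : Type} [Field K] (T : Fin 4 → Fin 4 → Fin 4 → ℤ) (x : Fin 4 → K) :
    qdet T x = 0 ↔ ∃ y, y ≠ 0 ∧ con T x y = 0 := by
  rw [qdet, ← Matrix.exists_vecMul_eq_zero_iff]
  refine exists_congr fun y => and_congr Iff.rfl (Eq.congr_left (funext fun c => ?_))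
  simp only [con, vecMul, dotProduct, of_apply, mul_sum]
  rw [sum_comm]
  exact sum_congr rfl fun a _ => sum_congr rfl fun b _ => by ring

theorem quartic_core {K : Type} [Field K] {v : AbsoluteValue K ℝ} (hv : IsNonarchimedean v)
    {k : Type} [Field k] (φ : ints hv →+* k) (hφ : ∀ a, φ a = 0 ↔ v a.1 < 1)
    {S U : Fin 4 → Fin 4 → Fin 4 → ℤ} (h1 : ∀ a b c, S a b c = S b a c) (h2 : rot S = S)
    (hG : Good k S U) {π : ℤ} (hπ0 : (π : K) ≠ 0) (hπ : ∀ l : ℕ, l.Prime → v π < v l)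
    (X : Set (ℙ K (Fin 4 → K))) (hX : X = {P | qdet (fun a b c => S a b c + π * U a b c) P.rep = 0}) :
    X = ∅ ∨ X.Infinite := by
  rcases X.eq_empty_or_nonempty with h | ⟨P, hP⟩
  · exact Or.inl h
  right
  have hπ1 : v π < 1 := (hπ 2 Nat.prime_two).trans_le hv.apply_natCast_le_one
  have hψπ : (π : k) = 0 := by
    rw [← map_intCast φ, hφ]; simpa using hπ1
  rw [hX] at hP
  obtain ⟨y, hy0, hy⟩ := (qdet_iff _ _).1 hP
  obtain ⟨s, i, a1, a2⟩ := normalise v P.rep_nonzero
  obtain ⟨t, j, b1, b2⟩ := normalise v hy0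
  have hinf := infinite_Pt4 hv φ hφ h1 h2 hG hπ0 hπ (i := i) (j := j)
    { x := s • P.rep, y := t • y, bx := a2, by' := b2, hx := a1, hy := b1
      h := funext fun c => by rw [con_smul, hy]; simp }
  have red : ∀ x z : Fin 4 → ints hv,
      con (fun a b c => S a b c + π * U a b c) (fun a => (x a).1) (fun a => (z a).1) = 0 →
        con S (fun a => φ (x a)) (fun a => φ (z a)) = 0 := fun x z h => funext fun c => by
    have g1 : con (fun a b c => S a b c + π * U a b c) x z c = 0 :=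
      Subtype.ext ((map_con (ints hv).subtype _ x z c).trans (congrFun h c))
    have g2 := congrArg φ g1
    rw [con_add, map_add, map_mul, map_intCast, hψπ, zero_mul, add_zero, map_con, map_zero] at g2
    exact g2
  refine Set.infinite_of_injective_forall_mem
    (f := fun Q : Pt4 v (fun a b c => S a b c + π * U a b c) i j => mk K Q.x (ne_zero_of Q.hx))
    (fun Q Q' h => ?_) fun Q => ?_
  · have e1 := eq_of_mk Q.hx Q'.hx h
    have e2 : Q.y = Q'.y := by
      by_contra h0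
      obtain ⟨r, l, c1, c2⟩ := normalise v (sub_ne_zero.2 h0)
      have g1 : con (fun a b c => S a b c + π * U a b c) Q.x (r • (Q.y - Q'.y)) = 0 := by
        funext c
        have g2 := con_right (fun a b c => S a b c + π * U a b c) Q.x Q.y Q'.y (-1) c
        rw [Q.h, e1, Q'.h, ← e1] at g2
        rw [← one_smul K Q.x, con_smul,
          show Q.y - Q'.y = fun a => Q.y a + -1 * Q'.y a by ext a; simp [sub_eq_add_neg], g2]
        simp
      let x' : Fin 4 → ints hv := fun a => ⟨_, Q.bx a⟩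
      let y' : Fin 4 → ints hv := fun a => ⟨_, Q.by' a⟩
      let z' : Fin 4 → ints hv := fun a => ⟨_, c2 a⟩
      have n1 : φ (x' i) = 1 := by rw [show x' i = 1 from Subtype.ext Q.hx, map_one]
      have n2 : φ (y' j) = 1 := by rw [show y' j = 1 from Subtype.ext Q.hy, map_one]
      have n3 : φ (z' l) = 1 := by rw [show z' l = 1 from Subtype.ext c1, map_one]
      have n4 : φ (z' j) = 0 := by
        rw [show z' j = 0 from Subtype.ext (by simp [z', Q.hy, Q'.hy]), map_zero]
      obtain ⟨τ, hτ⟩ := hG.rk (fun a => φ (x' a)) (fun a => φ (y' a)) (fun a => φ (z' a))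
        (ne_zero_of n1) (ne_zero_of n2) (red x' y' Q.h) (red x' z' g1)
      have g3 := congrFun hτ j
      have g4 := congrFun hτ l
      simp only [Pi.smul_apply, smul_eq_mul, n2, n3, n4, mul_one] at g3 g4
      simp [← g3] at g4
    cases Q; cases Q'
    simp only at e1 e2
    subst e1 e2
    rfl
  · obtain ⟨a, ha⟩ := exists_smul_eq_mk_rep K Q.x (ne_zero_of Q.hx)
    rw [hX]
    refine (qdet_iff _ _).2 ⟨Q.y, ne_zero_of Q.hy, funext fun c => ?_⟩
    rw [← ha, Units.smul_def, ← one_smul K Q.y, con_smul, Q.h]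
    simp

theorem con_cl {R : Type} [CommRing R] (a b : Fin 4 → R) : con cl a b =
    ![a 0 * b 1 + a 1 * b 0 + a 3 * b 3, a 1 * b 2 + a 2 * b 1 + a 0 * b 0,
      a 2 * b 3 + a 3 * b 2 + a 1 * b 1, a 3 * b 0 + a 0 * b 3 + a 2 * b 2] := by
  funext c
  fin_cases c <;> simp +decide [con, cl, Fin.sum_univ_four] <;> ring

theorem det3 {k : Type} [Field k] (p q r s t u v w x z1 z2 z3 : k)
    (hz : z1 = 0 → z2 = 0 → z3 = 0 → False) (e1 : p * z1 + q * z2 + r * z3 = 0)
    (e2 : s * z1 + t * z2 + u * z3 = 0) (e3 : v * z1 + w * z2 + x * z3 = 0) :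
    p * t * x - p * u * w - q * s * x + q * u * v + r * s * w - r * t * v = 0 := by
  by_contra hd
  refine hz (mul_left_cancel₀ hd ?_) (mul_left_cancel₀ hd ?_) (mul_left_cancel₀ hd ?_)
  · linear_combination (t * x - u * w) * e1 - (q * x - r * w) * e2 + (q * u - r * t) * e3
  · linear_combination -(s * x - u * v) * e1 + (p * x - r * v) * e2 - (p * u - r * s) * e3
  · linear_combination (s * w - t * v) * e1 - (p * w - q * v) * e2 + (p * t - q * s) * e3

theorem good_cl {k : Type} [Field k] (h2 : (2 : k) = 0) (hr : ∀ t : k, t ^ 2 + t + 1 ≠ 0)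
    (U : Fin 4 → Fin 4 → Fin 4 → ℤ) (u1 : Odd (alt U 0 1 2)) (u2 : Odd (alt U 0 1 3))
    (u3 : Odd (alt U 0 2 3)) (u4 : Odd (alt U 1 2 3)) : Good k cl U := by
  have key : ∀ x c : k, x ^ 2 = x + c → c ^ 2 = c → c = 0 := fun x c h1 h3 => by
    by_contra h0
    have : c = 1 := mul_left_cancel₀ h0 (by linear_combination h3)
    exact hr x (by linear_combination h1 + this + (x + 1) * h2)
  have eqs : ∀ a b : Fin 4 → k, con cl a b = 0 → a 0 * b 1 + a 1 * b 0 + a 3 * b 3 = 0 ∧
      a 1 * b 2 + a 2 * b 1 + a 0 * b 0 = 0 ∧ a 2 * b 3 + a 3 * b 2 + a 1 * b 1 = 0 ∧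
      a 3 * b 0 + a 0 * b 3 + a 2 * b 2 = 0 := fun a b h => by
    rw [con_cl] at h
    exact ⟨congrFun h 0, congrFun h 1, congrFun h 2, congrFun h 3⟩
  have zero : ∀ a : Fin 4 → k, a 0 = 0 → a 1 = 0 → a 2 = 0 → a 3 = 0 → a = 0 :=
    fun a h0 h1 h2 h3 => by ext i; fin_cases i <;> assumption
  constructor
  · intro a b b' ha hb h h'
    by_contra hne
    push Not at hne
    -- a kernel vector with a prescribed vanishing coordinate
    have ker : ∀ c : Fin 4, ∃ z : Fin 4 → k, z ≠ 0 ∧ z c = 0 ∧ con cl a z = 0 := fun c => by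
      by_cases hc : b c = 0
      · exact ⟨b, hb, hc, h⟩
      · refine ⟨fun i => b' i + -(b' c / b c) * b i, fun h0 => hne (b' c / b c) (funext fun i => ?_),
          by field_simp; ring, funext fun l => ?_⟩
        · have := congrFun h0 i
          simp only [Pi.zero_apply] at this
          simp only [Pi.smul_apply, smul_eq_mul]
          linear_combination this
        · rw [con_right, h, h']; simp
    obtain ⟨z0, n0, c0, k0⟩ := ker 0
    obtain ⟨z1, n1, c1, k1⟩ := ker 1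
    obtain ⟨z2, n2, c2, k2⟩ := ker 2
    obtain ⟨z3, n3, c3, k3⟩ := ker 3
    obtain ⟨p0, p1, p2, p3⟩ := eqs a z0 k0
    obtain ⟨q0, q1, q2, q3⟩ := eqs a z1 k1
    obtain ⟨r0, r1, r2, r3⟩ := eqs a z2 k2
    obtain ⟨s0, s1, s2, s3⟩ := eqs a z3 k3
    rw [c0] at p0 p1 p3
    rw [c1] at q0 q1 q2
    rw [c2] at r1 r2 r3
    rw [c3] at s0 s2 s3
    have m0 := det3 (a 2) (a 1) 0 (a 1) (a 3) (a 2) 0 (a 2) (a 0) (z0 1) (z0 2) (z0 3)
      (fun g1 g2 g3 => n0 (zero _ c0 g1 g2 g3)) (by linear_combination p1)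
      (by linear_combination p2) (by linear_combination p3)
    have mB := det3 (a 0) 0 (a 3) (a 2) (a 1) 0 0 (a 2) (a 0) (z0 1) (z0 2) (z0 3)
      (fun g1 g2 g3 => n0 (zero _ c0 g1 g2 g3)) (by linear_combination p0)
      (by linear_combination p1) (by linear_combination p3)
    have m1 := det3 (a 1) 0 (a 3) 0 (a 3) (a 2) (a 3) (a 2) (a 0) (z1 0) (z1 2) (z1 3)
      (fun g1 g2 g3 => n1 (zero _ g1 c1 g2 g3)) (by linear_combination q0)
      (by linear_combination q2) (by linear_combination q3)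
    have m2 := det3 (a 1) (a 0) (a 3) (a 0) (a 2) 0 (a 3) 0 (a 0) (z2 0) (z2 1) (z2 3)
      (fun g1 g2 g3 => n2 (zero _ g1 g2 c2 g3)) (by linear_combination r0)
      (by linear_combination r1) (by linear_combination r3)
    have m3 := det3 (a 1) (a 0) 0 (a 0) (a 2) (a 1) 0 (a 1) (a 3) (z3 0) (z3 1) (z3 2)
      (fun g1 g2 g3 => n3 (zero _ g1 g2 g3 c3)) (by linear_combination s0)
      (by linear_combination s1) (by linear_combination s2)
    by_cases h1 : a 1 = 0
    · rw [h1] at m0 m1 m2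
      have g3 : a 3 = 0 := pow_eq_zero_iff three_ne_zero |>.1 (by linear_combination -m1)
      rw [g3] at m0 m2
      exact ha (zero a (pow_eq_zero_iff three_ne_zero |>.1 (by linear_combination -m2)) h1
        (pow_eq_zero_iff three_ne_zero |>.1 (by linear_combination -m0)) g3)
    · refine hr (a 2 * a 3 / a 1 ^ 2) ?_
      field_simp
      linear_combination a 3 * mB + a 1 * m3 + a 1 ^ 4 * h2
  · intro a b ha hb h h'
    obtain ⟨E0, E1, E2, E3⟩ := eqs a b h
    have odd : ∀ n : ℤ, Odd n → (n : k) = 1 := fun n ⟨m, hm⟩ => by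
      rw [hm]; push_cast; linear_combination m * h2
    have v1 := odd _ u1
    have v2 := odd _ u2
    have v3 := odd _ u3
    have v4 := odd _ u4
    have t1 := congrFun h' 1
    have t2 := congrFun h' 2
    have t3 := congrFun h' 3
    simp only [con, alt, Fin.sum_univ_four, Pi.zero_apply] at t1 t2 t3 v1 v2 v3 v4
    push_cast at t1 t2 t3 v1 v2 v3 v4
    have w3 : (a 1 - a 0) * (b 2 - b 0) = (a 2 - a 0) * (b 1 - b 0) := by
      linear_combination t3 - (a 0 * b 1 - a 1 * b 0) * v2 - (a 0 * b 2 - a 2 * b 0) * v3 -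
        (a 1 * b 2 - a 2 * b 1) * v4 - (a 0 * b 2 - a 2 * b 0) * h2
    have w2 : (a 1 - a 0) * (b 3 - b 0) = (a 3 - a 0) * (b 1 - b 0) := by
      linear_combination t2 - (a 0 * b 1 - a 1 * b 0) * v1 + (a 0 * b 3 - a 3 * b 0) * v3 +
        (a 1 * b 3 - a 3 * b 1) * v4 + (a 1 * b 3 - a 3 * b 1) * h2
    have w1 : (a 2 - a 0) * (b 3 - b 0) = (a 3 - a 0) * (b 2 - b 0) := by
      linear_combination t1 + (a 0 * b 2 - a 2 * b 0) * v1 + (a 0 * b 3 - a 3 * b 0) * v2 -
        (a 2 * b 3 - a 3 * b 2) * v4 + (a 0 * b 2 - a 2 * b 0) * h2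
    clear t1 t2 t3 v1 v2 v3 v4
    have lin : ∀ z : Fin 4 → k, z 1 + z 0 + z 3 = 0 → z 2 + z 1 + z 0 = 0 → z 3 + z 2 + z 1 = 0 →
        z 0 + z 3 + z 2 = 0 → z = 0 := fun z g0 g1 g2 g3 =>
      zero z (by linear_combination g0 + g1 + g3 - (z 0 + z 1 + z 2 + z 3) * h2)
        (by linear_combination g0 + g1 + g2 - (z 0 + z 1 + z 2 + z 3) * h2)
        (by linear_combination g1 + g2 + g3 - (z 0 + z 1 + z 2 + z 3) * h2)
        (by linear_combination g0 + g2 + g3 - (z 0 + z 1 + z 2 + z 3) * h2)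
    have const : ¬ (a 1 = a 0 ∧ a 2 = a 0 ∧ a 3 = a 0) := fun ⟨g1, g2, g3⟩ => by
      have g0 : a 0 ≠ 0 := fun g => ha (zero a g (g1.trans g) (g2.trans g) (g3.trans g))
      simp only [g1, g2, g3] at E0 E1 E2 E3
      exact hb (lin b (mul_left_cancel₀ g0 (by linear_combination E0))
        (mul_left_cancel₀ g0 (by linear_combination E1))
        (mul_left_cancel₀ g0 (by linear_combination E2))
        (mul_left_cancel₀ g0 (by linear_combination E3)))
    obtain ⟨t, f1, f2, f3⟩ : ∃ t : k, b 1 - b 0 = t * (a 1 - a 0) ∧ b 2 - b 0 = t * (a 2 - a 0) ∧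
        b 3 - b 0 = t * (a 3 - a 0) := by
      by_cases g1 : a 1 - a 0 = 0
      · by_cases g2 : a 2 - a 0 = 0
        · have g3 : a 3 - a 0 ≠ 0 := fun g3 =>
            const ⟨sub_eq_zero.1 g1, sub_eq_zero.1 g2, sub_eq_zero.1 g3⟩
          refine ⟨(b 3 - b 0) / (a 3 - a 0), ?_, ?_, ?_⟩ <;> field_simp
          · linear_combination -w2
          · linear_combination -w1
        · refine ⟨(b 2 - b 0) / (a 2 - a 0), ?_, ?_, ?_⟩ <;> field_simp
          · linear_combination -w3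
          · linear_combination w1
      · refine ⟨(b 1 - b 0) / (a 1 - a 0), ?_, ?_, ?_⟩ <;> field_simp
        · linear_combination w3
        · linear_combination w2
    obtain ⟨s, f0⟩ : ∃ s, b 0 = t * a 0 + s := ⟨b 0 - t * a 0, by ring⟩
    have f1' : b 1 = t * a 1 + s := by linear_combination f1 + f0
    have f2' : b 2 = t * a 2 + s := by linear_combination f2 + f0
    have f3' : b 3 = t * a 3 + s := by linear_combination f3 + f0
    rw [f0, f1', f3'] at E0
    rw [f0, f1', f2'] at E1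
    rw [f1', f2', f3'] at E2
    rw [f0, f2', f3'] at E3
    by_cases hs : s = 0
    · have ht : t ≠ 0 := fun ht => hb (zero b (by simp [f0, hs, ht]) (by simp [f1', hs, ht])
        (by simp [f2', hs, ht]) (by simp [f3', hs, ht]))
      rw [hs] at E0 E1 E2 E3
      exact ha (zero a
        (pow_eq_zero_iff two_ne_zero |>.1 (mul_left_cancel₀ ht
          (by linear_combination E1 - t * a 1 * a 2 * h2)))
        (pow_eq_zero_iff two_ne_zero |>.1 (mul_left_cancel₀ ht
          (by linear_combination E2 - t * a 2 * a 3 * h2)))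
        (pow_eq_zero_iff two_ne_zero |>.1 (mul_left_cancel₀ ht
          (by linear_combination E3 - t * a 3 * a 0 * h2)))
        (pow_eq_zero_iff two_ne_zero |>.1 (mul_left_cancel₀ ht
          (by linear_combination E0 - t * a 0 * a 1 * h2))))
    by_cases ht : t = 0
    · rw [ht] at E0 E1 E2 E3
      exact ha (lin a (mul_left_cancel₀ hs (by linear_combination E0))
        (mul_left_cancel₀ hs (by linear_combination E1))
        (mul_left_cancel₀ hs (by linear_combination E2))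
        (mul_left_cancel₀ hs (by linear_combination E3)))
    obtain ⟨r, hr0, rfl⟩ : ∃ r : k, r ≠ 0 ∧ t = r * s := ⟨t / s, div_ne_zero ht hs, by field_simp⟩
    obtain ⟨x0, y0⟩ : ∃ x, x = r * a 0 := ⟨_, rfl⟩
    obtain ⟨x1, y1⟩ : ∃ x, x = r * a 1 := ⟨_, rfl⟩
    obtain ⟨x2, y2⟩ : ∃ x, x = r * a 2 := ⟨_, rfl⟩
    obtain ⟨x3, y3⟩ : ∃ x, x = r * a 3 := ⟨_, rfl⟩
    have G0 : x0 ^ 2 = x0 + x1 + x2 := mul_left_cancel₀ hs (by
      rw [y0, y1, y2]
      linear_combination r * E1 - r * s * (r * a 1 * a 2 + a 0 + a 1 + a 2) * h2)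
    have G1 : x1 ^ 2 = x1 + x2 + x3 := mul_left_cancel₀ hs (by
      rw [y1, y2, y3]
      linear_combination r * E2 - r * s * (r * a 2 * a 3 + a 1 + a 2 + a 3) * h2)
    have G2 : x2 ^ 2 = x2 + x3 + x0 := mul_left_cancel₀ hs (by
      rw [y0, y2, y3]
      linear_combination r * E3 - r * s * (r * a 3 * a 0 + a 2 + a 3 + a 0) * h2)
    have G3 : x3 ^ 2 = x3 + x0 + x1 := mul_left_cancel₀ hs (by
      rw [y0, y1, y3]
      linear_combination r * E0 - r * s * (r * a 0 * a 1 + a 3 + a 0 + a 1) * h2)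
    have k1 : x0 + x1 + x2 + x3 = 0 := key (x0 + x2) _
      (by linear_combination G0 + G2 + (x0 * x2) * h2)
      (by linear_combination G0 + G1 + G2 + G3 + (x0 * x1 + x0 * x2 + x0 * x3 + x1 * x2 +
        x1 * x3 + x2 * x3 + x0 + x1 + x2 + x3) * h2)
    have k2 : x1 + x3 = 0 := key (x0 + x1) _
      (by linear_combination G0 + G1 + (x0 * x1 + x2) * h2)
      (by linear_combination G1 + G3 + k1 + (x1 * x3) * h2)
    have k3 : x1 + x2 = 0 := key x0 _ (by linear_combination G0)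
      (by linear_combination G1 + G2 + k1 - k2 + k2 + (x1 * x2) * h2 - k2 + x3 * h2)
    refine const ⟨mul_left_cancel₀ hr0 ?_, mul_left_cancel₀ hr0 ?_, mul_left_cancel₀ hr0 ?_⟩ <;>
      simp only [← y0, ← y1, ← y2, ← y3]
    · linear_combination k2 + k3 - k1
    · linear_combination k1 - k2 - x0 * h2
    · linear_combination k1 - k3 - x0 * h2

theorem Good.map {k k' : Type} [Field k] [Field k'] (θ : k →+* k') (hθ : Function.Surjective θ)
    {S U : Fin 4 → Fin 4 → Fin 4 → ℤ} (h : Good k S U) : Good k' S U := by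
  have lift : ∀ a : Fin 4 → k', ∃ a' : Fin 4 → k, a = fun i => θ (a' i) := fun a => by
    choose f hf using fun i => hθ (a i)
    exact ⟨f, funext fun i => (hf i).symm⟩
  have z1 : ∀ a : Fin 4 → k, (fun i => θ (a i)) = 0 ↔ a = 0 := fun a => by
    simp [funext_iff]
  have z2 : ∀ T (a b : Fin 4 → k),
      con T (fun i => θ (a i)) (fun i => θ (b i)) = 0 ↔ con T a b = 0 := fun T a b => by
    rw [← z1, ← funext (map_con θ T a b)]
  constructor
  · intro a b b' ha hb h1 h2
    obtain ⟨a, rfl⟩ := lift a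
    obtain ⟨b, rfl⟩ := lift b
    obtain ⟨b', rfl⟩ := lift b'
    obtain ⟨t, rfl⟩ := h.rk a b b' (mt (z1 a).2 ha) (mt (z1 b).2 hb) ((z2 _ _ _).1 h1)
      ((z2 _ _ _).1 h2)
    exact ⟨θ t, by ext i; simp⟩
  · intro a b ha hb h1
    obtain ⟨a, rfl⟩ := lift a
    obtain ⟨b, rfl⟩ := lift b
    exact mt (z2 _ _ _).1 (h.nv a b (mt (z1 a).2 ha) (mt (z1 b).2 hb) ((z2 _ _ _).1 h1))

open IsDedekindDomain in
theorem quartic_general {p : ℕ} (hp : p.Prime) (K : Type) [Field K] [NumberField K] (k : Type)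
    [Field k] (θ : 𝓞 K →+* k) (hθ : Function.Surjective θ) (hpk : (p : k) = 0)
    {S U : Fin 4 → Fin 4 → Fin 4 → ℤ} (h1 : ∀ a b c, S a b c = S b a c)
    (h2 : ∀ a b c, S a b c = S b c a) (hG : Good k S U) {π : ℤ} (hπ0 : π ≠ 0)
    (hπ : (p : ℤ) ^ 2 ∣ π) (X : Set (ℙ K (Fin 4 → K)))
    (hX : X = {P | qdet (fun a b c => S a b c + π * U a b c) P.rep = 0}) : X = ∅ ∨ X.Infinite := by
  have hPm : (RingHom.ker θ).IsMaximal := RingHom.ker_isMaximal_of_surjective θ hθ
  have hpP : (p : 𝓞 K) ∈ RingHom.ker θ := by simpa [RingHom.mem_ker] using hpk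
  have hP0 : RingHom.ker θ ≠ ⊥ := fun h => hp.ne_zero (by simpa [h] using hpP)
  let w : HeightOneSpectrum (𝓞 K) := ⟨RingHom.ker θ, hPm.isPrime, hP0⟩
  have hb : (1 : NNReal) < 2 := one_lt_two
  have hv := w.isNonarchimedean_adicAbv (K := K) hb
  have hp1 : w.adicAbv (K := K) hb p < 1 := by
    simpa using (w.adicAbv_coe_lt_one_iff (K := K) hb (p : 𝓞 K)).2 hpP
  obtain ⟨k', _, φ, s1, s2⟩ := residue hv
  let ι : 𝓞 K →+* ints hv := (algebraMap (𝓞 K) K).codRestrict _ fun a => w.adicAbv_coe_le_one hb a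
  have hker : ∀ a, φ (ι a) = 0 ↔ a ∈ RingHom.ker θ := fun a =>
    (s2 _).trans (w.adicAbv_coe_lt_one_iff (K := K) hb a)
  let ψ : k →+* k' := RingHom.liftOfSurjective θ hθ ⟨φ.comp ι, fun a ha => (hker a).2 ha⟩
  have hψ : ∀ a, ψ (θ a) = φ (ι a) := fun a => RingHom.liftOfRightInverse_comp_apply _ _ _ _ a
  have hsurj : Function.Surjective ψ := fun y => by
    obtain ⟨a, rfl⟩ := s1 y
    have ha' : w.valuation K a.1 ≤ 1 := by
      have h1 : ((WithZeroMulInt.toNNReal (ne_zero_of_lt hb) (w.valuation K a.1) : NNReal) : ℝ) ≤ 1 :=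
        a.2
      exact (WithZeroMulInt.toNNReal_le_one_iff hb).1 (by exact_mod_cast h1)
    obtain ⟨n, s, hns⟩ := w.exists_primeCompl_mul_eq_of_integer a.1 ha'
    have hs : φ (ι s) ≠ 0 := fun h => s.2 ((hker _).1 h)
    refine ⟨θ n / θ s, ?_⟩
    rw [map_div₀, hψ, hψ, div_eq_iff hs, ← map_mul]
    exact congrArg φ (Subtype.ext hns.symm)
  exact quartic_core hv φ s2 h1 (by ext a b c; exact (h2 c a b)) (hG.map ψ hsurj)
    (by exact_mod_cast hπ0) (small hv hp hp1 hπ) X hX

theorem quartic_clebsch (K : Type) [Field K] [NumberField K] (hK : ¬ 2 ∣ Module.finrank ℚ K)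
    (U : Fin 4 → Fin 4 → Fin 4 → ℤ) (u1 : Odd (alt U 0 1 2)) (u2 : Odd (alt U 0 1 3))
    (u3 : Odd (alt U 0 2 3)) (u4 : Odd (alt U 1 2 3)) {π : ℤ} (hπ0 : π ≠ 0) (hπ : 4 ∣ π)
    (X : Set (ℙ K (Fin 4 → K)))
    (hX : X = {P | qdet (fun a b c => cl a b c + π * U a b c) P.rep = 0}) : X = ∅ ∨ X.Infinite := by
  obtain ⟨v, hv, hp1, hroot⟩ := exists_place Nat.prime_two K hK
  obtain ⟨k, _, φ, s1, s2⟩ := residue hv
  have hd : ((Polynomial.X ^ 2 + Polynomial.X + 1 : ℤ[X]).map
      (Int.castRingHom (ZMod 2))).natDegree = 2 := by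
    simp only [Polynomial.map_add, Polynomial.map_pow, map_X, Polynomial.map_one]
    compute_degree!
  have hr := hroot (Polynomial.X ^ 2 + Polynomial.X + 1) (by
    rw [irreducible_iff_roots_eq_zero_of_degree_le_three (by omega) (by omega)]
    refine Multiset.eq_zero_of_forall_notMem fun a ha => ?_
    have := isRoot_of_mem_roots ha
    simp only [Polynomial.map_add, Polynomial.map_pow, map_X, Polynomial.map_one, IsRoot.def,
      eval_add, eval_pow, eval_X, eval_one] at this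
    clear ha
    revert a
    decide) hd
  refine quartic_core hv φ s2 (by decide) (by decide) (good_cl ?_ (fun t => ?_) U u1 u2 u3 u4)
    (by exact_mod_cast hπ0) (small hv Nat.prime_two hp1 (by simpa using hπ)) X hX
  · have := (s2 ((2 : ℕ) : ints hv)).2 hp1
    rwa [map_natCast, Nat.cast_ofNat] at this
  · simpa using no_root hv φ s1 s2 _ hr t

end Pool.Agent.MP_a2aa7d_nt
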