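import Mathlib.Algebra.AffineMonoid.Basic
import Mathlib.Analysis.Normed.Field.Basic
import Mathlib.Algebra.Order.Star.Real
import Mathlib.RingTheory.DedekindDomain.AdicValuation
import Mathlib.RingTheory.Ideal.Quotient.HasFiniteQuotients
import Mathlib.RingTheory.Ideal.Int
import Mathlib.RingTheory.SimpleRing.Principal
import Mathlib.NumberTheory.RamificationInertia.Basic
import Mathlib.RingTheory.Henselian
import Mathlib.RingTheory.RegularLocalRing.Defs
import Mathlib.Tactic.Algebra.Basic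

-- ======== part 0: formerly Pool.Agent.MP_a2aa7d_nt.Dyn
section MrgPart0

/-! Maps close to the identity for a nonarchimedean absolute value have no periodic points other
than fixed points. -/

set_option autoImplicit false

namespace Pool.Agent.MP_a2aa7d_nt

variable {K : Type} [Field K] {v : AbsoluteValue K ℝ}

theorem add_le (hv : IsNonarchimedean v) {a b : K} {r : ℝ} (ha : v a ≤ r) (hb : v b ≤ r) :
    v (a + b) ≤ r := (hv a b).trans (max_le ha hb)

theorem add_lt (hv : IsNonarchimedean v) {a b : K} {r : ℝ} (ha : v a < r) (hb : v b < r) :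
    v (a + b) < r := (hv a b).trans_lt (max_lt ha hb)

theorem add_eq_one (hv : IsNonarchimedean v) {a b : K} (ha : v a = 1) (hb : v b < 1) :
    v (a + b) = 1 := by
  refine le_antisymm (add_le hv ha.le hb.le) (not_lt.1 fun h => ?_)
  have := add_lt hv h (show v (-b) < 1 by rwa [v.map_neg])
  rw [add_neg_cancel_right, ha] at this
  exact lt_irrefl _ this

variable {D ι : Type}

/-- bounded functions which are Lipschitz in the coordinates `c` -/
def lip (hv : IsNonarchimedean v) (c : ι → D → K) : Subring (D → K) where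
  carrier := {f | (∀ P, v (f P) ≤ 1) ∧
    ∀ P Q r, 0 ≤ r → (∀ i, v (c i P - c i Q) ≤ r) → v (f P - f Q) ≤ r}
  mul_mem' := fun {f g} hf hg => ⟨fun P => by
      rw [Pi.mul_apply, v.map_mul]; exact mul_le_one₀ (hf.1 P) (v.nonneg _) (hg.1 P),
    fun P Q r hr h => by
      rw [Pi.mul_apply, Pi.mul_apply,
        show f P * g P - f Q * g Q = f P * (g P - g Q) + (f P - f Q) * g Q by ring]
      refine add_le hv ?_ ?_ <;> rw [v.map_mul]
      · exact (mul_le_of_le_one_left (v.nonneg _) (hf.1 P)).trans (hg.2 P Q r hr h)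
      · exact (mul_le_of_le_one_right (v.nonneg _) (hg.1 Q)).trans (hf.2 P Q r hr h)⟩
  one_mem' := ⟨fun P => by simp, fun P Q r hr _ => by simpa using hr⟩
  add_mem' := fun {f g} hf hg => ⟨fun P => add_le hv (hf.1 P) (hg.1 P), fun P Q r hr h => by
      rw [Pi.add_apply, Pi.add_apply,
        show f P + g P - (f Q + g Q) = (f P - f Q) + (g P - g Q) by ring]
      exact add_le hv (hf.2 P Q r hr h) (hg.2 P Q r hr h)⟩
  zero_mem' := ⟨fun P => by simp, fun P Q r hr _ => by simpa using hr⟩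
  neg_mem' := fun {f} hf => ⟨fun P => by simpa using hf.1 P, fun P Q r hr h => by
      rw [Pi.neg_apply, Pi.neg_apply, show -f P - -f Q = -(f P - f Q) by ring, v.map_neg]
      exact hf.2 P Q r hr h⟩

/-- evaluation at a point -/
def ev (hv : IsNonarchimedean v) (c : ι → D → K) (P : D) : lip hv c →+* K :=
  (Pi.evalRingHom (fun _ => K) P).comp (lip hv c).subtype

theorem ev_le (hv : IsNonarchimedean v) (c : ι → D → K) (P : D) (f : lip hv c) :
    v (ev hv c P f) ≤ 1 := f.2.1 P

theorem isUnit_lip (hv : IsNonarchimedean v) (c : ι → D → K) (f : lip hv c)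
    (h : ∀ P, v (ev hv c P f) = 1) : IsUnit f := by
  have h' : ∀ P, v (f.1 P) = 1 := h
  have h0 : ∀ P, f.1 P ≠ 0 := fun P h1 => by simpa [h1] using h' P
  refine IsUnit.of_mul_eq_one ⟨fun P => (f.1 P)⁻¹, fun P => by simp [h' P], fun P Q r hr hc => ?_⟩
    (Subtype.ext (funext fun P => mul_inv_cancel₀ (h0 P)))
  rw [show (f.1 P)⁻¹ - (f.1 Q)⁻¹ = -(f.1 P - f.1 Q) * ((f.1 P)⁻¹ * (f.1 Q)⁻¹) by
    field_simp [h0 P, h0 Q]; ring]
  simpa [h' P, h' Q, v.map_sub] using f.2.2 P Q r hr hc

/-- the displacement of `g` is `lam`-Lipschitz -/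
def Cl (v : AbsoluteValue K ℝ) (c : ι → D → K) (lam : ℝ) (g : D → D) : Prop :=
  ∀ P Q r, 0 ≤ r → (∀ i, v (c i P - c i Q) ≤ r) →
    ∀ i, v (c i (g P) - c i P - (c i (g Q) - c i Q)) ≤ lam * r

theorem Cl.near (hv : IsNonarchimedean v) {c : ι → D → K} {lam : ℝ} (hl : lam ≤ 1) {g : D → D}
    (hg : Cl v c lam g) {P Q : D} {r : ℝ} (hr : 0 ≤ r) (h : ∀ i, v (c i P - c i Q) ≤ r) (i : ι) :
    v (c i (g P) - c i (g Q)) ≤ r := by
  rw [show c i (g P) - c i (g Q) = (c i (g P) - c i P - (c i (g Q) - c i Q)) + (c i P - c i Q) by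
    ring]
  exact add_le hv ((hg P Q r hr h i).trans (mul_le_of_le_one_left hr hl)) (h i)

theorem Cl.iterate (hv : IsNonarchimedean v) {c : ι → D → K} {lam : ℝ} (h0 : 0 ≤ lam)
    (hl : lam ≤ 1) {g : D → D} (hg : Cl v c lam g) (n : ℕ) : Cl v c lam g^[n] := by
  induction n with
  | zero => intro P Q r hr _ i; simpa using mul_nonneg h0 hr
  | succ n ih =>
    intro P Q r hr h i
    rw [Function.iterate_succ_apply, Function.iterate_succ_apply,
      show c i (g^[n] (g P)) - c i P - (c i (g^[n] (g Q)) - c i Q) =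
        (c i (g^[n] (g P)) - c i (g P) - (c i (g^[n] (g Q)) - c i (g Q))) +
          (c i (g P) - c i P - (c i (g Q) - c i Q)) by ring]
    exact add_le hv (ih _ _ r hr (hg.near hv hl hr h) i) (hg P Q r hr h i)

theorem Cl.of_lip (hv : IsNonarchimedean v) {c : ι → D → K} {g : D → D} {π : K}
    (h : ∀ i, ∃ f : lip hv c, ∀ P, c i (g P) = c i P + π * ev hv c P f) : Cl v c (v π) g := by
  intro P Q r hr hc i
  obtain ⟨f, hf⟩ := h i
  rw [hf, hf, show c i P + π * ev hv c P f - c i P - (c i Q + π * ev hv c Q f - c i Q) =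
    π * (ev hv c P f - ev hv c Q f) by ring, v.map_mul]
  exact mul_le_mul_of_nonneg_left (f.2.2 P Q r hr hc) (v.nonneg _)

theorem Cl.step [Fintype ι] [Nonempty ι] (hv : IsNonarchimedean v) {c : ι → D → K}
    (hinj : ∀ P Q, (∀ i, c i P = c i Q) → P = Q) {lam : ℝ} (h0 : 0 ≤ lam) (hl : lam ≤ 1)
    {g : D → D} (hg : Cl v c lam g) {n : ℕ} (hn : lam < v n) {P : D} (h : g^[n] P = P) :
    g P = P := by
  obtain ⟨i₀, -, hi₀⟩ := Finset.exists_max_image Finset.univ (fun i => v (c i (g P) - c i P))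
    Finset.univ_nonempty
  set r := v (c i₀ (g P) - c i₀ P) with hr
  have hr0 : 0 ≤ r := v.nonneg _
  have h1 : ∀ k : ℕ, ∀ i, v (c i (g^[k] P) - c i P) ≤ r ∧
      v (c i (g^[k] P) - c i P - k * (c i (g P) - c i P)) ≤ lam * r := by
    intro k
    induction k with
    | zero => intro i; simpa using ⟨hr0, mul_nonneg h0 hr0⟩
    | succ k ih =>
      intro i
      have h2 := hg _ _ r hr0 (fun i => (ih i).1) i
      rw [Function.iterate_succ_apply']
      constructor
      · rw [show c i (g (g^[k] P)) - c i P = (c i (g (g^[k] P)) - c i (g P)) + (c i (g P) - c i P) by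
          ring]
        exact add_le hv (hg.near hv hl hr0 (fun i => (ih i).1) i) (hi₀ i (Finset.mem_univ _))
      · rw [show c i (g (g^[k] P)) - c i P - ((k + 1 : ℕ) : K) * (c i (g P) - c i P) =
          (c i (g (g^[k] P)) - c i (g^[k] P) - (c i (g P) - c i P)) +
            (c i (g^[k] P) - c i P - k * (c i (g P) - c i P)) by push_cast; ring]
        exact add_le hv h2 (ih i).2
  have h3 := (h1 n i₀).2
  rw [h, sub_self, zero_sub, v.map_neg, v.map_mul, ← hr] at h3
  have h4 : r = 0 := by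
    by_contra h5
    exact absurd (le_of_mul_le_mul_right h3 (lt_of_le_of_ne hr0 (Ne.symm h5))) (not_le.2 hn)
  refine hinj _ _ fun i => sub_eq_zero.1 (v.eq_zero.1 (le_antisymm ?_ (v.nonneg _)))
  exact (hi₀ i (Finset.mem_univ _)).trans h4.le

/-- periodic points are fixed -/
theorem Cl.fixed [Fintype ι] [Nonempty ι] (hv : IsNonarchimedean v) {c : ι → D → K}
    (hinj : ∀ P Q, (∀ i, c i P = c i Q) → P = Q) {lam : ℝ} (h0 : 0 ≤ lam)
    (hl : ∀ l : ℕ, l.Prime → lam < v l) {n : ℕ} (hn : n ≠ 0) :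
    ∀ g : D → D, Cl v c lam g → ∀ P, g^[n] P = P → g P = P := by
  have hl1 : lam ≤ 1 := (hl 2 Nat.prime_two).le.trans hv.apply_natCast_le_one
  induction n using induction_on_primes with
  | zero => exact absurd rfl hn
  | one => exact fun g _ P h => h
  | prime_mul p a hp ih =>
    intro g hg P h
    rw [Function.iterate_mul] at h
    exact hg.step hv hinj h0 hl1 (hl p hp)
      (ih (by rintro rfl; simp at hn) _ (hg.iterate hv h0 hl1 p) P h)

/-- a finite nonempty set has a fixed point -/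
theorem Cl.exists_fixed [Fintype ι] [Nonempty ι] [Finite D] (hv : IsNonarchimedean v)
    {c : ι → D → K} (hinj : ∀ P Q, (∀ i, c i P = c i Q) → P = Q) {lam : ℝ} (h0 : 0 ≤ lam)
    (hl : ∀ l : ℕ, l.Prime → lam < v l) {g : D → D} (hg : Cl v c lam g) (P : D) :
    ∃ Q, g Q = Q := by
  have key : ∀ m n : ℕ, m < n → g^[m] P = g^[n] P → ∃ Q, g Q = Q := fun m n hmn h => by
    obtain ⟨k, rfl⟩ := Nat.exists_eq_add_of_lt hmn
    refine ⟨g^[m] P, Cl.fixed hv hinj h0 hl (Nat.succ_ne_zero k) g hg _ ?_⟩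
    rw [← Function.iterate_add_apply, h]
    congr 1
    omega
  obtain ⟨m, n, hmn, h⟩ := Finite.exists_ne_map_eq_of_infinite fun n : ℕ => g^[n] P
  rcases lt_or_gt_of_ne hmn with h1 | h1
  · exact key m n h1 h
  · exact key n m h1 h.symm

/-- the square of the residue characteristic is smaller than every prime -/
theorem sq_lt_prime (hv : IsNonarchimedean v) [CharZero K] {p : ℕ} (hp : p.Prime) (h : v p < 1)
    (l : ℕ) (hl : l.Prime) : v ((p : K) ^ 2) < v l := by
  have h0 : 0 < v p := v.pos (by exact_mod_cast hp.ne_zero)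
  rw [v.map_pow]
  by_cases h1 : l = p
  · rw [h1]; nlinarith
  · have h2 : IsCoprime (l : ℤ) p := Nat.isCoprime_iff_coprime.2 ((Nat.coprime_primes hl hp).2 h1)
    obtain ⟨a, b, hab⟩ := h2
    have h3 : (a : K) * l + b * p = 1 := by exact_mod_cast congrArg (Int.cast : ℤ → K) hab
    have h4 : ¬ v l < 1 := fun h5 => by
      have h6 : v ((a : K) * l + b * p) < 1 := by
        refine add_lt hv ?_ ?_ <;> rw [v.map_mul]
        · exact (mul_le_of_le_one_left (v.nonneg _) hv.apply_intCast_le_one).trans_lt h5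
        · exact (mul_le_of_le_one_left (v.nonneg _) hv.apply_intCast_le_one).trans_lt h
      simp [h3] at h6
    nlinarith [not_lt.1 h4]

end Pool.Agent.MP_a2aa7d_nt

end MrgPart0

-- ======== part 1: formerly Pool.Agent.MP_a2aa7d_nt.Place
section MrgPart1

/-! A place of a number field whose residue degree is not divisible by a given number. -/

set_option autoImplicit false

namespace Pool.Agent.MP_a2aa7d_nt

open Polynomial NumberField IsDedekindDomain

theorem exists_place {p : ℕ} (hp : p.Prime) (K : Type) [Field K] [NumberField K] {d : ℕ}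
    (hd : ¬ d ∣ Module.finrank ℚ K) :
    ∃ v : AbsoluteValue K ℝ, IsNonarchimedean v ∧ v p < 1 ∧ ∀ χ : ℤ[X],
      Irreducible (χ.map (Int.castRingHom (ZMod p))) →
      (χ.map (Int.castRingHom (ZMod p))).natDegree = d →
      ∀ a : K, v a ≤ 1 → ¬ v (aeval a χ) < 1 := by
  classical
  have : Fact p.Prime := ⟨hp⟩
  have hp0 : (p : ℤ) ≠ 0 := by exact_mod_cast hp.ne_zero
  set I : Ideal ℤ := Ideal.span {(p : ℤ)} with hI
  have hI0 : I ≠ ⊥ := by simpa [hI] using hp.ne_zero
  have hIm : I.IsMaximal := Int.ideal_span_isMaximal_of_prime p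
  have hsum := Ideal.sum_ramification_inertia (𝓞 K) ℚ K hI0
  obtain ⟨P, hP, hPd⟩ : ∃ P ∈ IsDedekindDomain.primesOverFinset I (𝓞 K),
      ¬ d ∣ I.inertiaDeg' P := by
    by_contra h
    push Not at h
    exact hd (hsum ▸ Finset.dvd_sum fun P hP => (h P hP).mul_left _)
  rw [IsDedekindDomain.mem_primesOverFinset_iff hI0] at hP
  have := hP.1
  have := hP.2
  have hP0 : P ≠ ⊥ := Ideal.ne_bot_of_liesOver_of_ne_bot hI0 P
  have hPm : P.IsMaximal := Ring.DimensionLEOne.maximalOfPrime hP0 hP.1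
  let w : HeightOneSpectrum (𝓞 K) := ⟨P, hP.1, hP0⟩
  have hb : (1 : NNReal) < 2 := one_lt_two
  refine ⟨w.adicAbv hb, w.isNonarchimedean_adicAbv hb, ?_, fun χ hχ hχd a ha hlt => ?_⟩
  · have h1 : (p : 𝓞 K) ∈ P := by
      have : (p : ℤ) ∈ P.under ℤ := by
        rw [← Ideal.over_def P I]; exact Ideal.mem_span_singleton_self _
      simpa using ((Ideal.mem_under ℤ P).1 this)
    simpa using (w.adicAbv_coe_lt_one_iff (K := K) hb (p : 𝓞 K)).2 h1
  · have ha' : w.valuation K a ≤ 1 := by
      have h1 : ((WithZeroMulInt.toNNReal (ne_zero_of_lt hb) (w.valuation K a) : NNReal) : ℝ) ≤ 1 :=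
        ha
      exact (WithZeroMulInt.toNNReal_le_one_iff hb).1 (by exact_mod_cast h1)
    obtain ⟨n, s, hns⟩ := w.exists_primeCompl_mul_eq_of_integer a ha'
    let : Field (ℤ ⧸ I) := Ideal.Quotient.field I
    let : Field (𝓞 K ⧸ P) := Ideal.Quotient.field P
    have hs : Ideal.Quotient.mk P s ≠ 0 := fun h => s.2 (Ideal.Quotient.eq_zero_iff_mem.1 h)
    set q := χ.map (algebraMap ℤ (𝓞 K)) with hq
    have h1 := scaleRoots_eval₂_mul (p := q) (algebraMap (𝓞 K) K) a s
    rw [mul_comm, hns, eval₂_at_apply, hq, eval₂_map, ← hq,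
      show (algebraMap (𝓞 K) K).comp (algebraMap ℤ (𝓞 K)) = algebraMap ℤ K from
        RingHom.ext_int _ _, ← aeval_def] at h1
    have h2 : eval n (scaleRoots q s) ∈ P := by
      refine (w.adicAbv_coe_lt_one_iff (K := K) hb _).1 ?_
      rw [h1, map_mul, map_pow]
      exact (mul_le_of_le_one_left (AbsoluteValue.nonneg _ _)
        (pow_le_one₀ (AbsoluteValue.nonneg _ _) (w.adicAbv_coe_le_one hb _))).trans_lt hlt
    have h3 := scaleRoots_eval₂_mul (p := q) (Ideal.Quotient.mk P)
      ((Ideal.Quotient.mk P s)⁻¹ * Ideal.Quotient.mk P n) s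
    rw [mul_inv_cancel_left₀ hs, eval₂_at_apply, Ideal.Quotient.eq_zero_iff_mem.2 h2] at h3
    have h4 := (mul_eq_zero.1 h3.symm).resolve_left (pow_ne_zero _ hs)
    set β := (Ideal.Quotient.mk P s)⁻¹ * Ideal.Quotient.mk P n
    set f := χ.map (Ideal.Quotient.mk I) with hf
    have hfe : f = (χ.map (Int.castRingHom (ZMod p))).map
        (Int.quotientSpanNatEquivZMod p).symm.toRingHom := by
      rw [Polynomial.map_map, hf]
      congr 1
      exact RingHom.ext_int _ _
    have hfi : Irreducible f := by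
      rw [hfe]
      exact (MulEquiv.irreducible_iff (mapEquiv (Int.quotientSpanNatEquivZMod p).symm)).2 hχ
    have hfd : f.natDegree = d := by
      rw [hfe, natDegree_map_eq_of_injective (RingEquiv.injective _), hχd]
    have h5 : aeval β f = 0 := by
      rw [aeval_def, hf, eval₂_map, ← h4, hq, eval₂_map]
      congr 1
    apply hPd
    rw [Ideal.inertiaDeg'_algebraMap, ← hfd, minpoly.Irreducible.eq_minpoly hfi h5,
      natDegree_C_mul (leadingCoeff_ne_zero.2 hfi.ne_zero)]
    exact minpoly.degree_dvd (IsIntegral.of_finite _ _)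

end Pool.Agent.MP_a2aa7d_nt

end MrgPart1

-- marker of a merged file
example : 731051 + 597823 = 731051 + 597823 := rfl
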