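import Pool.Agent.MP_a2aa7d_nt.Wehler

/-! Surfaces of tridegree (2,2,2) near a double del Pezzo surface of degree six. -/

set_option autoImplicit false

namespace Pool.Agent.MP_a2aa7d_nt

open Polynomial Finset

/-- the trilinear form with integer coefficients `T` -/
def tri {R : Type} [CommRing R] (T : Fin 2 → Fin 2 → Fin 2 → ℤ) (x y z : Fin 2 → R) : R :=
  ∑ a, ∑ b, ∑ c, (T a b c : R) * x a * y b * z c

/-- the form of tridegree (2,2,2) with integer coefficients `F` -/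
def trq {R : Type} [CommRing R] (F : Fin 2 → Fin 2 → Fin 2 → Fin 2 → Fin 2 → Fin 2 → ℤ)
    (x y z : Fin 2 → R) : R :=
  ∑ a, ∑ a', ∑ b, ∑ b', ∑ c, ∑ c', (F a a' b b' c c' : R) * x a * x a' * y b * y b' * z c * z c'

/-- the hyperdeterminant of Cayley -/
def hdet (T : Fin 2 → Fin 2 → Fin 2 → ℤ) : ℤ :=
  (T 0 0 0 * T 1 1 1 + T 0 0 1 * T 1 1 0 - T 0 1 0 * T 1 0 1 - T 0 1 1 * T 1 0 0) ^ 2 -
    4 * (T 0 0 0 * T 1 1 0 - T 0 1 0 * T 1 0 0) * (T 0 0 1 * T 1 1 1 - T 0 1 1 * T 1 0 1)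

/-- the equation of the surface -/
def eqn {R : Type} [CommRing R] (T : Fin 2 → Fin 2 → Fin 2 → ℤ)
    (F : Fin 2 → Fin 2 → Fin 2 → Fin 2 → Fin 2 → Fin 2 → ℤ) (π : ℤ) (x y z : Fin 2 → R) : R :=
  tri T x y z ^ 2 - (π : R) ^ 2 * trq F x y z

section alg

variable {R S : Type} [CommRing R] [CommRing S] (T : Fin 2 → Fin 2 → Fin 2 → ℤ)
  (F : Fin 2 → Fin 2 → Fin 2 → Fin 2 → Fin 2 → Fin 2 → ℤ)

theorem map_tri (φ : R →+* S) (x y z : Fin 2 → R) :
    φ (tri T x y z) = tri T (fun a => φ (x a)) (fun a => φ (y a)) fun a => φ (z a) := by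
  simp [tri]

theorem map_trq (φ : R →+* S) (x y z : Fin 2 → R) :
    φ (trq F x y z) = trq F (fun a => φ (x a)) (fun a => φ (y a)) fun a => φ (z a) := by
  simp only [trq, map_sum, map_mul, map_intCast]

theorem map_eqn (φ : R →+* S) (π : ℤ) (x y z : Fin 2 → R) :
    φ (eqn T F π x y z) = eqn T F π (fun a => φ (x a)) (fun a => φ (y a)) fun a => φ (z a) := by
  simp only [eqn, map_sub, map_mul, map_pow, map_intCast, map_tri, map_trq]

/-- cyclic shift of the slots -/
def rot3 : Fin 2 → Fin 2 → Fin 2 → ℤ := fun b c a => T a b c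

def rot6 : Fin 2 → Fin 2 → Fin 2 → Fin 2 → Fin 2 → Fin 2 → ℤ :=
  fun b b' c c' a a' => F a a' b b' c c'

theorem tri_rot (x y z : Fin 2 → R) : tri (rot3 T) y z x = tri T x y z := by
  simp only [tri, rot3, Fin.sum_univ_two]; ring

theorem trq_rot (x y z : Fin 2 → R) : trq (rot6 F) y z x = trq F x y z := by
  simp only [trq, rot6, Fin.sum_univ_two]; ring

theorem eqn_rot (π : ℤ) (x y z : Fin 2 → R) :
    eqn (rot3 T) (rot6 F) π y z x = eqn T F π x y z := by rw [eqn, eqn, tri_rot, trq_rot]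

theorem hdet_rot : hdet (rot3 T) = hdet T := by simp only [hdet, rot3]; ring

theorem tri_add (x e y z : Fin 2 → R) (s : R) :
    tri T (fun k => x k + s * e k) y z = tri T x y z + s * tri T e y z := by
  simp only [tri, Fin.sum_univ_two]; ring

theorem trq_add (x e y z : Fin 2 → R) (s : R) :
    trq F (fun k => x k + s * e k) y z = trq F x y z +
      s * (trq F (x + e) y z - trq F x y z - trq F e y z) + s ^ 2 * trq F e y z := by
  simp only [trq, Fin.sum_univ_two, Pi.add_apply]; ring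

theorem tri_smul (x y z : Fin 2 → R) (r s t : R) :
    tri T (r • x) (s • y) (t • z) = r * s * t * tri T x y z := by
  simp only [tri, Fin.sum_univ_two, Pi.smul_apply, smul_eq_mul]; ring

theorem trq_smul (x y z : Fin 2 → R) (r s t : R) :
    trq F (r • x) (s • y) (t • z) = (r * s * t) ^ 2 * trq F x y z := by
  simp only [trq, Fin.sum_univ_two, Pi.smul_apply, smul_eq_mul]; ring

/-- the other basis vector -/
def oth (R : Type) [CommRing R] (i : Fin 2) : Fin 2 → R := fun a => if a = i then 0 else 1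

theorem map_oth (φ : R →+* S) (i : Fin 2) : (fun a => φ (oth R i a)) = oth S i := by
  ext a; simp only [oth]; split_ifs <;> simp

/-- vanishing of the polar form in one direction suffices -/
theorem polar_all (π : ℤ) {x y z : Fin 2 → R} {i : Fin 2} (hx : x i = 1)
    (h0 : eqn T F π x y z = 0)
    (h : eqn T F π (x + oth R i) y z = eqn T F π (oth R i) y z) (u : Fin 2 → R) :
    eqn T F π (x + u) y z = eqn T F π u y z := by
  simp only [eqn, tri, trq, Fin.sum_univ_two, Pi.add_apply, oth] at h h0 ⊢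
  fin_cases i
  · simp only [Fin.zero_eta, Fin.isValue, if_true, one_ne_zero, if_false] at h hx
    rw [hx] at h h0 ⊢
    linear_combination (u 1 - u 0 * x 1) * h + (1 + 2 * u 0 - (u 1 - u 0 * x 1)) * h0
  · simp only [Fin.mk_one, Fin.isValue, if_true, zero_ne_one, if_false] at h hx
    rw [hx] at h h0 ⊢
    linear_combination (u 0 - u 1 * x 0) * h + (1 + 2 * u 1 - (u 0 - u 1 * x 0)) * h0

theorem step3 (π : ℤ) (x y z e : Fin 2 → R) (w : R) (h2 : tri T x y z = π * w)
    (h3 : w ^ 2 = trq F x y z) (hu : IsUnit (eqn T F π e y z)) :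
    ∃ t k : R, tri T (fun a => x a + π * t * e a) y z = π * (-w + π * k) ∧
      (-w + π * k) ^ 2 = trq F (fun a => x a + π * t * e a) y z ∧
      eqn T F π (x + e) y z - eqn T F π e y z = -(π * t) * eqn T F π e y z := by
  obtain ⟨u, hu⟩ := hu.exists_left_inv
  have e0 : tri T (x + e) y z = π * w + tri T e y z := by
    have := tri_add T x e y z 1
    simp only [one_mul, h2] at this
    exact this
  simp only [eqn, e0] at hu ⊢
  simp only [tri_add, trq_add, h2]
  set m := tri T e y z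
  set Φ := trq F e y z
  set γ := trq F (x + e) y z - trq F x y z - Φ with hγ
  have e1 : w + -u * (2 * w * m - π * γ) * m = -w + π * (u * γ * m - 2 * w * u * π * Φ) := by
    linear_combination (-2 * w) * hu
  refine ⟨-u * (2 * w * m - π * γ), u * γ * m - 2 * w * u * π * Φ, ?_, ?_, ?_⟩
  · rw [← e1]; ring
  · rw [← e1]
    linear_combination h3 + (u * (2 * w * m - π * γ) ^ 2) * hu
  · linear_combination (π : R) ^ 2 * h3 + (π : R) ^ 2 * hγ - (π * (2 * w * m - π * γ)) * hu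

end alg

theorem res_tri {k : Type} [Field k] (T : Fin 2 → Fin 2 → Fin 2 → ℤ)
    (hT : ∀ a : k, a ^ 2 ≠ hdet T) {x y z : Fin 2 → k} {i j l : Fin 2} (hx : x i = 1)
    (hy : y j = 1) (hz : z l = 1) (h : tri T x y z = 0) : tri T (oth k i) y z ≠ 0 := by
  intro h1
  have h2 : ∀ a, ∑ b, ∑ c, (T a b c : k) * y b * z c = 0 := by
    simp only [tri, Fin.sum_univ_two, oth] at h h1 ⊢
    intro a
    fin_cases i <;> fin_cases a <;> simp at h1 hx ⊢ <;> rw [hx] at h
    · linear_combination h - x 1 * h1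
    · linear_combination h1
    · linear_combination h1
    · linear_combination h - x 0 * h1
  have h3 := h2 0
  have h4 := h2 1
  simp only [Fin.sum_univ_two] at h3 h4
  have h5 : ((T 0 0 0 : k) * z 0 + T 0 0 1 * z 1) * (T 1 1 0 * z 0 + T 1 1 1 * z 1) -
      (T 0 1 0 * z 0 + T 0 1 1 * z 1) * (T 1 0 0 * z 0 + T 1 0 1 * z 1) = 0 := by
    fin_cases j <;> simp at hy <;> rw [hy] at h3 h4
    · linear_combination (T 1 1 0 * z 0 + T 1 1 1 * z 1) * h3 - (T 0 1 0 * z 0 + T 0 1 1 * z 1) * h4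
    · linear_combination (T 0 0 0 * z 0 + T 0 0 1 * z 1) * h4 - (T 1 0 0 * z 0 + T 1 0 1 * z 1) * h3
  fin_cases l <;> simp at hz <;> rw [hz] at h5
  · refine hT (2 * (T 0 0 1 * T 1 1 1 - T 0 1 1 * T 1 0 1) * z 1 +
      (T 0 0 0 * T 1 1 1 + T 0 0 1 * T 1 1 0 - T 0 1 0 * T 1 0 1 - T 0 1 1 * T 1 0 0)) ?_
    simp only [hdet]
    push_cast
    linear_combination 4 * (T 0 0 1 * T 1 1 1 - T 0 1 1 * T 1 0 1) * h5
  · refine hT (2 * (T 0 0 0 * T 1 1 0 - T 0 1 0 * T 1 0 0) * z 0 +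
      (T 0 0 0 * T 1 1 1 + T 0 0 1 * T 1 1 0 - T 0 1 0 * T 1 0 1 - T 0 1 1 * T 1 0 0)) ?_
    simp only [hdet]
    push_cast
    linear_combination 4 * (T 0 0 0 * T 1 1 0 - T 0 1 0 * T 1 0 0) * h5

variable {K : Type} [Field K] {v : AbsoluteValue K ℝ}

theorem res_tri_val (hv : IsNonarchimedean v) (T : Fin 2 → Fin 2 → Fin 2 → ℤ)
    (hT : ∀ a : K, v a ≤ 1 → ¬ v (aeval a (X ^ 2 - C (hdet T))) < 1) {x y z : Fin 2 → K}
    {i j l : Fin 2} (bx : ∀ a, v (x a) ≤ 1) (by' : ∀ a, v (y a) ≤ 1) (bz : ∀ a, v (z a) ≤ 1)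
    (hx : x i = 1) (hy : y j = 1) (hz : z l = 1) (h : v (tri T x y z) < 1) :
    1 ≤ v (tri T (oth K i) y z) := by
  obtain ⟨k, _, φ, s1, s2⟩ := residue hv
  let x' : Fin 2 → ints hv := fun a => ⟨x a, bx a⟩
  let y' : Fin 2 → ints hv := fun a => ⟨y a, by' a⟩
  let z' : Fin 2 → ints hv := fun a => ⟨z a, bz a⟩
  have e : ∀ u : Fin 2 → ints hv, (tri T u y' z').1 = tri T (fun a => (u a).1) y z :=
    fun u => map_tri T (ints hv).subtype u y' z'
  have h1 := res_tri T (fun a ha => no_root hv φ s1 s2 _ hT a (by simp [ha]))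
    (x := fun a => φ (x' a)) (y := fun a => φ (y' a)) (z := fun a => φ (z' a))
    (i := i) (j := j) (l := l) (by rw [show x' i = 1 from Subtype.ext hx, map_one])
    (by rw [show y' j = 1 from Subtype.ext hy, map_one])
    (by rw [show z' l = 1 from Subtype.ext hz, map_one]) (by rw [← map_tri, s2, e]; exact h)
  rw [← map_oth φ, ← map_tri, Ne, s2, not_lt, e] at h1
  exact h1.trans_eq (by rw [← map_oth (ints hv).subtype]; rfl)

theorem step3_lip (hv : IsNonarchimedean v) {D ι : Type} (cc : ι → D → K)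
    (T : Fin 2 → Fin 2 → Fin 2 → ℤ)
    (hT : ∀ a : K, v a ≤ 1 → ¬ v (aeval a (X ^ 2 - C (hdet T))) < 1)
    (F : Fin 2 → Fin 2 → Fin 2 → Fin 2 → Fin 2 → Fin 2 → ℤ) (π : ℤ) (hπ : v π < 1)
    {i j l : Fin 2} (x y z : Fin 2 → lip hv cc) (w : lip hv cc) (hx : x i = 1) (hy : y j = 1)
    (hz : z l = 1) (h2 : tri T x y z = π * w) (h3 : w ^ 2 = trq F x y z) :
    ∃ (h x' : Fin 2 → lip hv cc) (k w' : lip hv cc), (∀ a, x' a = x a + π * h a) ∧
      w' = -w + π * k ∧ x' i = 1 ∧ tri T x' y z = π * w' ∧ w' ^ 2 = trq F x' y z ∧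
      ∀ P, (∀ a, ev hv cc P (x' a) = ev hv cc P (x a)) → ∀ u,
        eqn T F π ((fun a => ev hv cc P (x a)) + u) (fun a => ev hv cc P (y a))
            (fun a => ev hv cc P (z a)) =
          eqn T F π u (fun a => ev hv cc P (y a)) (fun a => ev hv cc P (z a)) := by
  obtain ⟨t, k, g1, g2, g3⟩ := step3 T F π x y z (oth _ i) w h2 h3 (by
    refine isUnit_lip hv cc _ fun P => ?_
    have g := res_tri_val hv T hT (x := fun a => ev hv cc P (x a)) (y := fun a => ev hv cc P (y a))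
      (z := fun a => ev hv cc P (z a)) (i := i) (j := j) (l := l) (fun a => ev_le hv cc P _)
      (fun a => ev_le hv cc P _) (fun a => ev_le hv cc P _) (by simp [hx]) (by simp [hy])
      (by simp [hz]) (by
        rw [← map_tri, h2, map_mul, map_intCast, v.map_mul]
        exact (mul_le_of_le_one_right (v.nonneg _) (ev_le hv cc P _)).trans_lt hπ)
    rw [← map_oth (ev hv cc P), ← map_tri] at g
    rw [eqn, map_sub, sub_eq_add_neg]
    refine add_eq_one hv (by
      rw [map_pow, v.map_pow, le_antisymm (ev_le hv cc P _) g, one_pow]) ?_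
    rw [v.map_neg, map_mul, v.map_mul, map_pow, map_intCast, v.map_pow]
    exact (mul_le_of_le_one_right (by positivity) (ev_le hv cc P _)).trans_lt
      (pow_lt_one₀ (v.nonneg _) hπ two_ne_zero))
  refine ⟨fun a => t * oth _ i a, fun a => x a + π * t * oth _ i a, k, _,
    fun a => by ring, rfl, by simp [oth, hx], g1, g2, fun P hP => ?_⟩
  refine polar_all T F π (i := i) (by simp [hx]) ?_ ?_
  · rw [← map_eqn, eqn, h2, ← h3]; simp [mul_pow]
  · have f1 : ev hv cc P (π * t) = 0 := by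
      have f2 := hP (i + 1)
      have f3 : i + 1 ≠ i := by fin_cases i <;> simp
      simpa only [oth, f3, if_false, mul_one, map_add, add_eq_left] using f2
    have f4 := congrArg (ev hv cc P) g3
    rw [map_mul, map_neg, f1, neg_zero, zero_mul, map_sub, sub_eq_zero, map_eqn, map_eqn,
      map_oth] at f4
    rw [← f4, ← map_oth (ev hv cc P)]
    congr 1

theorem Cl.all_fixed {D ι : Type} [Fintype ι] [Nonempty ι] [Finite D] (hv : IsNonarchimedean v)
    {c : ι → D → K} (hinj : ∀ P Q, (∀ i, c i P = c i Q) → P = Q) {lam : ℝ} (h0 : 0 ≤ lam)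
    (hl : ∀ l : ℕ, l.Prime → lam < v l) {g : D → D} (hg : Cl v c lam g) (P : D) : g P = P := by
  have hl1 : lam < 1 := (hl 2 Nat.prime_two).trans_le hv.apply_natCast_le_one
  have hi : Function.Injective g := fun P Q h => by
    obtain ⟨i₀, -, hi₀⟩ := Finset.exists_max_image Finset.univ (fun i => v (c i P - c i Q))
      Finset.univ_nonempty
    have h1 := hg P Q _ (v.nonneg _) (fun i => hi₀ i (mem_univ _)) i₀
    rw [h, show c i₀ (g Q) - c i₀ P - (c i₀ (g Q) - c i₀ Q) = -(c i₀ P - c i₀ Q) by ring,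
      v.map_neg] at h1
    have h2 : v (c i₀ P - c i₀ Q) ≤ 0 := by nlinarith [v.nonneg (c i₀ P - c i₀ Q)]
    exact hinj _ _ fun i => sub_eq_zero.1 (v.eq_zero.1
      (le_antisymm ((hi₀ i (mem_univ _)).trans h2) (v.nonneg _)))
  obtain ⟨n, hn, h⟩ := Function.mem_periodicPts.1 (hi.mem_periodicPts P)
  exact Cl.fixed hv hinj h0 hl hn.ne' g hg P h

/-- normalised points -/
structure Pt3 (v : AbsoluteValue K ℝ) (T : Fin 2 → Fin 2 → Fin 2 → ℤ)
    (F : Fin 2 → Fin 2 → Fin 2 → Fin 2 → Fin 2 → Fin 2 → ℤ) (π : ℤ) (i j l : Fin 2) where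
  x : Fin 2 → K
  y : Fin 2 → K
  z : Fin 2 → K
  w : K
  bx : ∀ a, v (x a) ≤ 1
  by' : ∀ a, v (y a) ≤ 1
  bz : ∀ a, v (z a) ≤ 1
  bw : v w ≤ 1
  hx : x i = 1
  hy : y j = 1
  hz : z l = 1
  h2 : tri T x y z = π * w
  h3 : w ^ 2 = trq F x y z

/-- on a finite set of points two of the three polar forms vanish -/
theorem two_polars (hv : IsNonarchimedean v) (T : Fin 2 → Fin 2 → Fin 2 → ℤ)
    (hT : ∀ a : K, v a ≤ 1 → ¬ v (aeval a (X ^ 2 - C (hdet T))) < 1)
    (F : Fin 2 → Fin 2 → Fin 2 → Fin 2 → Fin 2 → Fin 2 → ℤ) {π : ℤ}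
    (hπ : ∀ l : ℕ, l.Prime → v π < v l) {i j l : Fin 2} [Finite (Pt3 v T F π i j l)]
    (Q : Pt3 v T F π i j l) (u : Fin 2 → K) :
    eqn T F π (Q.x + u) Q.y Q.z = eqn T F π u Q.y Q.z := by
  have hπ1 : v π < 1 := (hπ 2 Nat.prime_two).trans_le hv.apply_natCast_le_one
  let cc : Option (Fin 2 ⊕ Fin 2 ⊕ Fin 2) → Pt3 v T F π i j l → K := fun o P =>
    o.elim P.w (Sum.elim P.x (Sum.elim P.y P.z))
  have hinj : ∀ P Q, (∀ o, cc o P = cc o Q) → P = Q := fun P Q h => by
    have e1 : P.x = Q.x := funext fun a => h (some (Sum.inl a))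
    have e2 : P.y = Q.y := funext fun a => h (some (Sum.inr (Sum.inl a)))
    have e3 : P.z = Q.z := funext fun a => h (some (Sum.inr (Sum.inr a)))
    have e4 : P.w = Q.w := h none
    cases P; cases Q
    simp only at e1 e2 e3 e4
    subst e1 e2 e3 e4
    rfl
  let x : Fin 2 → lip hv cc := fun a =>
    ⟨fun P => P.x a, fun P => P.bx a, fun _ _ _ _ h => h (some (Sum.inl a))⟩
  let y : Fin 2 → lip hv cc := fun a =>
    ⟨fun P => P.y a, fun P => P.by' a, fun _ _ _ _ h => h (some (Sum.inr (Sum.inl a)))⟩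
  let z : Fin 2 → lip hv cc := fun a =>
    ⟨fun P => P.z a, fun P => P.bz a, fun _ _ _ _ h => h (some (Sum.inr (Sum.inr a)))⟩
  let w : lip hv cc := ⟨fun P => P.w, fun P => P.bw, fun _ _ _ _ h => h none⟩
  have ext : ∀ f g : lip hv cc, (∀ P, ev hv cc P f = ev hv cc P g) → f = g :=
    fun f g h => Subtype.ext (funext h)
  obtain ⟨h, x', k, w', a1, a2, a3, a5, a6, a7⟩ := step3_lip hv cc T hT F π hπ1 (i := i) (j := j)
    (l := l) x y z w (ext _ _ fun P => P.hx) (ext _ _ fun P => P.hy) (ext _ _ fun P => P.hz)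
    (ext _ _ fun P => by rw [map_tri, map_mul, map_intCast]; exact P.h2)
    (ext _ _ fun P => by rw [map_pow, map_trq]; exact P.h3)
  obtain ⟨h', y', k', w'', b1, b2, b3, b5, b6, -⟩ := step3_lip hv cc (rot3 T)
    (by rwa [hdet_rot]) (rot6 F) π hπ1 (i := j) (j := l) (l := i) y z x' w'
    (ext _ _ fun P => P.hy) (ext _ _ fun P => P.hz) a3 (by rw [tri_rot]; exact a5)
    (by rw [trq_rot]; exact a6)
  rw [tri_rot] at b5
  rw [trq_rot] at b6
  let g : Pt3 v T F π i j l → Pt3 v T F π i j l := fun P =>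
    { x := fun a => ev hv cc P (x' a)
      y := fun a => ev hv cc P (y' a)
      z := fun a => ev hv cc P (z a)
      w := ev hv cc P w''
      bx := fun a => ev_le hv cc P _
      by' := fun a => ev_le hv cc P _
      bz := fun a => ev_le hv cc P _
      bw := ev_le hv cc P _
      hx := by rw [a3, map_one]
      hy := by rw [b3, map_one]
      hz := P.hz
      h2 := by rw [← map_tri, b5, map_mul, map_intCast]
      h3 := by rw [← map_trq, ← map_pow, b6] }
  have hg : Cl v cc (v π) g := Cl.of_lip hv fun o => by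
    rcases o with _ | a | a | a
    · refine ⟨k' - k, fun P => ?_⟩
      show ev hv cc P w'' = ev hv cc P w + _
      rw [b2, a2]
      simp only [map_add, map_neg, map_mul, map_intCast, map_sub]
      ring
    · refine ⟨h a, fun P => ?_⟩
      show ev hv cc P (x' a) = ev hv cc P (x a) + _
      rw [a1, map_add, map_mul, map_intCast]
    · refine ⟨h' a, fun P => ?_⟩
      show ev hv cc P (y' a) = ev hv cc P (y a) + _
      rw [b1, map_add, map_mul, map_intCast]
    · refine ⟨0, fun P => ?_⟩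
      show ev hv cc P (z a) = ev hv cc P (z a) + _
      simp
  exact a7 Q (fun a => congrFun (congrArg Pt3.x (hg.all_fixed hv hinj (v.nonneg _) hπ Q)) a) u

end Pool.Agent.MP_a2aa7d_nt
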