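import Mathlib.LinearAlgebra.Projectivization.Basic
import Pool.Agent.MP_a2aa7d_nt.Tri

/-! The two dichotomy theorems. -/

set_option autoImplicit false

namespace Pool.Agent.MP_a2aa7d_nt

open Polynomial Finset Projectivization
open scoped LinearAlgebra.Projectivization

variable {K : Type} [Field K] {v : AbsoluteValue K ℝ}

theorem normalise (v : AbsoluteValue K ℝ) {n : ℕ} {x : Fin n → K} (hx : x ≠ 0) :
    ∃ (s : K) (i : Fin n), (s • x) i = 1 ∧ ∀ a, v ((s • x) a) ≤ 1 := by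
  obtain ⟨a₀, ha₀⟩ := Function.ne_iff.1 hx
  obtain ⟨i, -, hi⟩ := exists_max_image univ (fun a => v (x a)) ⟨a₀, mem_univ _⟩
  have h1 : 0 < v (x i) := (v.pos ha₀).trans_le (hi a₀ (mem_univ _))
  have h2 : x i ≠ 0 := fun h => by simp [h] at h1
  refine ⟨(x i)⁻¹, i, by simp [h2], fun a => ?_⟩
  rw [Pi.smul_apply, smul_eq_mul, v.map_mul, map_inv₀, inv_mul_le_one₀ h1]
  exact hi a (mem_univ _)

theorem ne_zero_of {n : ℕ} {x : Fin n → K} {i : Fin n} (h : x i = 1) : x ≠ 0 :=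
  fun h0 => by simp [h0] at h

theorem eq_of_mk {n : ℕ} {x y : Fin n → K} {i : Fin n} (hx : x i = 1) (hy : y i = 1)
    (h : mk K x (ne_zero_of hx) = mk K y (ne_zero_of hy)) : x = y := by
  obtain ⟨a, ha⟩ := (mk_eq_mk_iff' K _ _ _ _).1 h
  have h1 := congrFun ha i
  rw [Pi.smul_apply, hx, hy, smul_eq_mul, mul_one] at h1
  rw [← ha, h1, one_smul]

theorem small [CharZero K] (hv : IsNonarchimedean v) {p : ℕ} (hp : p.Prime) (h : v p < 1) {π : ℤ}
    (hπ : (p : ℤ) ^ 2 ∣ π) (l : ℕ) (hl : l.Prime) : v π < v l := by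
  obtain ⟨m, rfl⟩ := hπ
  push_cast
  rw [v.map_mul]
  exact (mul_le_of_le_one_right (v.nonneg _) hv.apply_intCast_le_one).trans_lt
    (sq_lt_prime hv hp h l hl)

theorem le_one_of_sq {w : K} (h : v (w ^ 2) ≤ 1) : v w ≤ 1 := by
  rw [v.map_pow] at h
  exact (pow_le_one_iff_of_nonneg (v.nonneg _) two_ne_zero).1 h

theorem ints_le (hv : IsNonarchimedean v) (a : ints hv) : v ((ints hv).subtype a) ≤ 1 := a.2

theorem wehler {p : ℕ} (hp : p.Prime) (C : Matrix (Fin 3) (Fin 3) ℤ)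
    (hC : Irreducible (C.charpoly.map (Int.castRingHom (ZMod p))))
    (F : Fin 3 → Fin 3 → Fin 3 → Fin 3 → ℤ) {c π : ℤ} (hc : ¬ (p : ℤ) ∣ c) (hπ0 : π ≠ 0)
    (hπ : (p : ℤ) ^ 2 ∣ π) (K : Type) [Field K] [NumberField K] (hK : ¬ 3 ∣ Module.finrank ℚ K)
    (S : Set (ℙ K (Fin 3 → K) × ℙ K (Fin 3 → K)))
    (hS : S = {P | bil 1 P.1.rep P.2.rep = 0 ∧ bil C P.1.rep P.2.rep ^ 2 =
      (π : K) ^ 2 * (c * bil (C * C) P.1.rep P.2.rep ^ 2 + p * biq F P.1.rep P.2.rep)}) :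
    S = ∅ ∨ S.Infinite := by
  have : Fact p.Prime := ⟨hp⟩
  obtain ⟨v, hv, hp1, hroot⟩ := exists_place hp K hK
  have hC' := hroot _ hC (by
    rw [(Matrix.charpoly_monic C).natDegree_map, Matrix.charpoly_natDegree_eq_dim, Fintype.card_fin])
  have hπK : (π : K) ≠ 0 := by exact_mod_cast hπ0
  have hc1 : v c = 1 := by
    refine le_antisymm hv.apply_intCast_le_one (not_lt.1 fun h5 => ?_)
    obtain ⟨a, b, hab⟩ := ((Nat.prime_iff_prime_int.1 hp).irreducible.coprime_iff_not_dvd).2 hc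
    have h3 : (a : K) * p + b * c = 1 := by exact_mod_cast congrArg (Int.cast : ℤ → K) hab
    have h6 : v ((a : K) * p + b * c) < 1 := by
      refine add_lt hv ?_ ?_ <;> rw [v.map_mul]
      · exact (mul_le_of_le_one_left (v.nonneg _) hv.apply_intCast_le_one).trans_lt hp1
      · exact (mul_le_of_le_one_left (v.nonneg _) hv.apply_intCast_le_one).trans_lt h5
    simp [h3] at h6
  rcases S.eq_empty_or_nonempty with h | ⟨P, hP⟩
  · exact Or.inl h
  right
  rw [hS] at hP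
  obtain ⟨s, i, a1, a2⟩ := normalise v P.1.rep_nonzero
  obtain ⟨t, j, b1, b2⟩ := normalise v P.2.rep_nonzero
  have h3 : (bil C (s • P.1.rep) (t • P.2.rep) / π) ^ 2 =
      c * bil (C * C) (s • P.1.rep) (t • P.2.rep) ^ 2 +
        ((p : ℤ) : K) * biq F (s • P.1.rep) (t • P.2.rep) := by
    rw [div_pow, div_eq_iff (pow_ne_zero 2 hπK), bil_smul, bil_smul, biq_smul, mul_pow, hP.2]
    push_cast
    ring
  have hinf := infinite_Pt hv C hC' F (c := c) (q := p) (π := π) hc1 (by simpa using hp1) hπK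
    (small hv hp hp1 hπ) (i := i) (j := j)
    { x := s • P.1.rep, y := t • P.2.rep, w := bil C (s • P.1.rep) (t • P.2.rep) / π,
      bx := a2, by' := b2, hx := a1, hy := b1, h3 := h3
      h1 := by rw [bil_smul, hP.1, mul_zero]
      h2 := by field_simp
      bw := le_one_of_sq (by
        rw [h3]
        let x' : Fin 3 → ints hv := fun a => ⟨_, a2 a⟩
        let y' : Fin 3 → ints hv := fun a => ⟨_, b2 a⟩
        have e := ints_le hv (c * bil (C * C) x' y' ^ 2 + ((p : ℤ) : ints hv) * biq F x' y')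
        simp only [map_add, map_mul, map_pow, map_intCast, map_bil, map_biq] at e
        exact e) }
  refine Set.infinite_of_injective_forall_mem
    (f := fun Q : Pt v C F c p π i j => (mk K Q.x (ne_zero_of Q.hx), mk K Q.y (ne_zero_of Q.hy)))
    (fun Q Q' h => ?_) fun Q => ?_
  · have e1 := eq_of_mk Q.hx Q'.hx (congrArg Prod.fst h)
    have e2 := eq_of_mk Q.hy Q'.hy (congrArg Prod.snd h)
    have e3 : Q.w = Q'.w := mul_left_cancel₀ hπK (by rw [← Q.h2, ← Q'.h2, e1, e2])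
    cases Q; cases Q'
    simp only at e1 e2 e3
    subst e1 e2 e3
    rfl
  · obtain ⟨a, ha⟩ := exists_smul_eq_mk_rep K Q.x (ne_zero_of Q.hx)
    obtain ⟨b, hb⟩ := exists_smul_eq_mk_rep K Q.y (ne_zero_of Q.hy)
    rw [hS]
    simp only [Set.mem_ofPred_eq, ← ha, ← hb, Units.smul_def, bil_smul, biq_smul, Q.h1, Q.h2]
    refine ⟨mul_zero _, ?_⟩
    have := Q.h3
    push_cast at this
    linear_combination ((a : K) * b * π) ^ 2 * this

/-- cyclic shift of a point -/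
def Pt3.rot {T : Fin 2 → Fin 2 → Fin 2 → ℤ} {F : Fin 2 → Fin 2 → Fin 2 → Fin 2 → Fin 2 → Fin 2 → ℤ}
    {π : ℤ} {i j l : Fin 2} (P : Pt3 v T F π i j l) : Pt3 v (rot3 T) (rot6 F) π j l i :=
  { x := P.y, y := P.z, z := P.x, w := P.w, bx := P.by', by' := P.bz, bz := P.bx, bw := P.bw,
    hx := P.hy, hy := P.hz, hz := P.hx, h2 := by rw [tri_rot, P.h2], h3 := by rw [trq_rot, P.h3] }

theorem Pt3.rot_surj {T : Fin 2 → Fin 2 → Fin 2 → ℤ}
    {F : Fin 2 → Fin 2 → Fin 2 → Fin 2 → Fin 2 → Fin 2 → ℤ} {π : ℤ} {i j l : Fin 2} :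
    Function.Surjective (Pt3.rot : Pt3 v T F π i j l → _) := fun P =>
  ⟨{ x := P.z, y := P.x, z := P.y, w := P.w, bx := P.bz, by' := P.bx, bz := P.by', bw := P.bw,
      hx := P.hz, hy := P.hx, hz := P.hy, h2 := by rw [← tri_rot, P.h2],
      h3 := by rw [← trq_rot, P.h3] }, rfl⟩

theorem triple {p : ℕ} (hp : p.Prime) (T : Fin 2 → Fin 2 → Fin 2 → ℤ)
    (hT : ¬ IsSquare ((hdet T : ℤ) : ZMod p))
    (F : Fin 2 → Fin 2 → Fin 2 → Fin 2 → Fin 2 → Fin 2 → ℤ) {π : ℤ} (hπ0 : π ≠ 0)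
    (hπ : (p : ℤ) ^ 2 ∣ π) (K : Type) [Field K] [NumberField K] (hK : ¬ 2 ∣ Module.finrank ℚ K)
    (hsm : ∀ x y z : Fin 2 → K, x ≠ 0 → y ≠ 0 → z ≠ 0 → eqn T F π x y z = 0 →
      ¬ ∀ u, eqn T F π (x + u) y z = eqn T F π u y z ∧ eqn T F π x (y + u) z = eqn T F π x u z ∧
        eqn T F π x y (z + u) = eqn T F π x y u)
    (S : Set (ℙ K (Fin 2 → K) × ℙ K (Fin 2 → K) × ℙ K (Fin 2 → K)))
    (hS : S = {P | eqn T F π P.1.rep P.2.1.rep P.2.2.rep = 0}) : S = ∅ ∨ S.Infinite := by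
  have : Fact p.Prime := ⟨hp⟩
  obtain ⟨v, hv, hp1, hroot⟩ := exists_place hp K hK
  have hd : ((X ^ 2 - C (hdet T) : ℤ[X]).map (Int.castRingHom (ZMod p))).natDegree = 2 := by
    rw [(monic_X_pow_sub_C _ two_ne_zero).natDegree_map, natDegree_X_pow_sub_C]
  have hT' := hroot (X ^ 2 - C (hdet T)) (by
    rw [irreducible_iff_roots_eq_zero_of_degree_le_three (by omega) (by omega)]
    refine Multiset.eq_zero_of_forall_notMem fun a ha => hT ⟨a, ?_⟩
    have := isRoot_of_mem_roots ha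
    rw [Polynomial.map_sub, Polynomial.map_pow, map_X, map_C, IsRoot.def,
      eval_sub, eval_pow, eval_X, eval_C, eq_intCast] at this
    linear_combination -this) hd
  have hπK : (π : K) ≠ 0 := by exact_mod_cast hπ0
  rcases S.eq_empty_or_nonempty with h | ⟨P, hP⟩
  · exact Or.inl h
  right
  rw [hS] at hP
  obtain ⟨r, i, a1, a2⟩ := normalise v P.1.rep_nonzero
  obtain ⟨s, j, b1, b2⟩ := normalise v P.2.1.rep_nonzero
  obtain ⟨t, l, c1, c2⟩ := normalise v P.2.2.rep_nonzero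
  have h3 : (tri T (r • P.1.rep) (s • P.2.1.rep) (t • P.2.2.rep) / π) ^ 2 =
      trq F (r • P.1.rep) (s • P.2.1.rep) (t • P.2.2.rep) := by
    rw [div_pow, div_eq_iff (pow_ne_zero 2 hπK), tri_smul, trq_smul, mul_pow, sub_eq_zero.1 hP]
    ring
  let Q : Pt3 v T F π i j l :=
    { x := r • P.1.rep, y := s • P.2.1.rep, z := t • P.2.2.rep,
      w := tri T (r • P.1.rep) (s • P.2.1.rep) (t • P.2.2.rep) / π,
      bx := a2, by' := b2, bz := c2, hx := a1, hy := b1, hz := c1, h3 := h3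
      h2 := by field_simp
      bw := le_one_of_sq (by
        rw [h3]
        let x' : Fin 2 → ints hv := fun a => ⟨_, a2 a⟩
        let y' : Fin 2 → ints hv := fun a => ⟨_, b2 a⟩
        let z' : Fin 2 → ints hv := fun a => ⟨_, c2 a⟩
        exact (map_trq F (ints hv).subtype x' y' z').symm ▸ (trq F x' y' z').2) }
  have hzero : ∀ Q : Pt3 v T F π i j l, eqn T F π Q.x Q.y Q.z = 0 := fun Q => by
    rw [eqn, Q.h2, ← Q.h3]; ring
  have hinf : Infinite (Pt3 v T F π i j l) := by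
    by_contra hfin
    rw [not_infinite_iff_finite] at hfin
    have f1 : Finite (Pt3 v (rot3 T) (rot6 F) π j l i) := Finite.of_surjective _ Pt3.rot_surj
    have f2 : Finite (Pt3 v (rot3 (rot3 T)) (rot6 (rot6 F)) π l i j) :=
      Finite.of_surjective _ Pt3.rot_surj
    have hs := small hv hp hp1 hπ
    refine hsm Q.x Q.y Q.z (ne_zero_of Q.hx) (ne_zero_of Q.hy) (ne_zero_of Q.hz) (hzero Q)
      fun u => ⟨two_polars hv T hT' F hs Q u, ?_, ?_⟩
    · have := two_polars hv (rot3 T) (by rwa [hdet_rot]) (rot6 F) hs Q.rot u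
      rwa [eqn_rot, eqn_rot] at this
    · have := two_polars hv (rot3 (rot3 T)) (by rwa [hdet_rot, hdet_rot]) (rot6 (rot6 F)) hs
        Q.rot.rot u
      rwa [eqn_rot, eqn_rot, eqn_rot, eqn_rot] at this
  refine Set.infinite_of_injective_forall_mem
    (f := fun Q : Pt3 v T F π i j l => (mk K Q.x (ne_zero_of Q.hx), mk K Q.y (ne_zero_of Q.hy),
      mk K Q.z (ne_zero_of Q.hz))) (fun Q Q' h => ?_) fun Q => ?_
  · have e1 := eq_of_mk Q.hx Q'.hx (congrArg Prod.fst h)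
    have e2 := eq_of_mk Q.hy Q'.hy (congrArg (fun P => P.2.1) h)
    have e3 := eq_of_mk Q.hz Q'.hz (congrArg (fun P => P.2.2) h)
    have e4 : Q.w = Q'.w := mul_left_cancel₀ hπK (by rw [← Q.h2, ← Q'.h2, e1, e2, e3])
    cases Q; cases Q'
    simp only at e1 e2 e3 e4
    subst e1 e2 e3 e4
    rfl
  · obtain ⟨a, ha⟩ := exists_smul_eq_mk_rep K Q.x (ne_zero_of Q.hx)
    obtain ⟨b, hb⟩ := exists_smul_eq_mk_rep K Q.y (ne_zero_of Q.hy)
    obtain ⟨c, hc⟩ := exists_smul_eq_mk_rep K Q.z (ne_zero_of Q.hz)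
    rw [hS]
    simp only [Set.mem_ofPred_eq, ← ha, ← hb, ← hc, Units.smul_def, eqn, tri_smul, trq_smul, Q.h2,
      ← Q.h3]
    ring

end Pool.Agent.MP_a2aa7d_nt
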