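import Mathlib.Algebra.Polynomial.SpecificDegree
import Mathlib.LinearAlgebra.CrossProduct
import Pool.Agent.MP_a2aa7d_nt.Place

/-! Wehler surfaces near two del Pezzo surfaces of degree six glued along the hexagon. -/

set_option autoImplicit false

namespace Pool.Agent.MP_a2aa7d_nt

open Polynomial Matrix Finset

/-- the bilinear form of an integer matrix -/
def bil {R : Type} [CommRing R] (C : Matrix (Fin 3) (Fin 3) ℤ) (x y : Fin 3 → R) : R :=
  ∑ a, ∑ b, (C a b : R) * x a * y b

/-- the form of bidegree (2,2) with integer coefficients `F` -/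
def biq {R : Type} [CommRing R] (F : Fin 3 → Fin 3 → Fin 3 → Fin 3 → ℤ) (x y : Fin 3 → R) : R :=
  ∑ a, ∑ b, ∑ c, ∑ d, (F a b c d : R) * x a * x b * y c * y d

section alg

variable {R S : Type} [CommRing R] [CommRing S]

theorem map_bil (φ : R →+* S) (C : Matrix (Fin 3) (Fin 3) ℤ) (x y : Fin 3 → R) :
    φ (bil C x y) = bil C (fun a => φ (x a)) fun a => φ (y a) := by simp [bil]

theorem map_biq (φ : R →+* S) (F : Fin 3 → Fin 3 → Fin 3 → Fin 3 → ℤ) (x y : Fin 3 → R) :
    φ (biq F x y) = biq F (fun a => φ (x a)) fun a => φ (y a) := by simp [biq]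

theorem bil_swap (C : Matrix (Fin 3) (Fin 3) ℤ) (x y : Fin 3 → R) : bil Cᵀ y x = bil C x y := by
  unfold bil
  rw [sum_comm]
  exact sum_congr rfl fun a _ => sum_congr rfl fun b _ => by rw [transpose_apply]; ring

theorem biq_swap (F : Fin 3 → Fin 3 → Fin 3 → Fin 3 → ℤ) (x y : Fin 3 → R) :
    biq (fun c d a b => F a b c d) y x = biq F x y := by
  simp only [biq, Fin.sum_univ_three]
  ring

theorem bil_add (C : Matrix (Fin 3) (Fin 3) ℤ) (x y e : Fin 3 → R) (s : R) :
    bil C x (fun k => y k + s * e k) = bil C x y + s * bil C x e := by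
  simp only [bil, Fin.sum_univ_three]
  ring

theorem biq_add (F : Fin 3 → Fin 3 → Fin 3 → Fin 3 → ℤ) (x y e : Fin 3 → R) :
    ∃ β : R, ∀ s : R,
      biq F x (fun k => y k + s * e k) = biq F x y + s * β + s ^ 2 * biq F x e := by
  refine ⟨∑ a, ∑ b, ∑ c, ∑ d, (F a b c d : R) * x a * x b * (y c * e d + e c * y d), fun s => ?_⟩
  simp only [biq, mul_sum, ← sum_add_distrib]
  refine sum_congr rfl fun a _ => sum_congr rfl fun b _ => sum_congr rfl fun c _ =>
    sum_congr rfl fun d _ => by ring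

theorem bil_smul (C : Matrix (Fin 3) (Fin 3) ℤ) (x y : Fin 3 → R) (s t : R) :
    bil C (s • x) (t • y) = s * t * bil C x y := by
  simp only [bil, Fin.sum_univ_three, Pi.smul_apply, smul_eq_mul]
  ring

theorem biq_smul (F : Fin 3 → Fin 3 → Fin 3 → Fin 3 → ℤ) (x y : Fin 3 → R) (s t : R) :
    biq F (s • x) (t • y) = (s * t) ^ 2 * biq F x y := by
  simp only [biq, mul_sum, Pi.smul_apply, smul_eq_mul]
  refine sum_congr rfl fun a _ => sum_congr rfl fun b _ => sum_congr rfl fun c _ =>
    sum_congr rfl fun d _ => by ring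

/-- the direction of the line dual to `x` with vanishing `j`-th coordinate -/
def dir (x : Fin 3 → R) (j : Fin 3) : Fin 3 → R := crossProduct x (Pi.single j 1)

theorem map_dir (φ : R →+* S) (x : Fin 3 → R) (j k : Fin 3) :
    φ (dir x j k) = dir (fun a => φ (x a)) j k := by
  fin_cases j <;> fin_cases k <;> simp [dir, cross_apply]

theorem dir_self (x : Fin 3 → R) (j : Fin 3) : dir x j j = 0 := by
  fin_cases j <;> simp [dir, cross_apply]

theorem bil_one_dir (x : Fin 3 → R) (j : Fin 3) : bil 1 x (dir x j) = 0 := by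
  fin_cases j <;> simp [bil, dir, cross_apply, Fin.sum_univ_three, Matrix.one_apply] <;> ring

/-- the Vieta involution in the fibre over `x` -/
theorem step (C : Matrix (Fin 3) (Fin 3) ℤ) (F : Fin 3 → Fin 3 → Fin 3 → Fin 3 → ℤ) (c q π : R)
    (x y e : Fin 3 → R) (w : R) (h2 : bil C x y = π * w)
    (h3 : w ^ 2 = c * bil (C * C) x y ^ 2 + q * biq F x y)
    (hu : IsUnit (bil C x e ^ 2 - π ^ 2 * (c * bil (C * C) x e ^ 2 + q * biq F x e))) :
    ∃ t k : R, bil C x (fun a => y a + π * t * e a) = π * (-w + π * k) ∧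
      (-w + π * k) ^ 2 = c * bil (C * C) x (fun a => y a + π * t * e a) ^ 2 +
        q * biq F x (fun a => y a + π * t * e a) := by
  obtain ⟨β, hβ⟩ := biq_add F x y e
  obtain ⟨u, hu⟩ := hu.exists_left_inv
  simp only [bil_add, hβ, h2]
  set m := bil C x e
  set n := bil (C * C) x e
  set N := bil (C * C) x y
  set Φ := c * n ^ 2 + q * biq F x e
  set γ := 2 * c * N * n + q * β
  have e1 : w + -u * (2 * w * m - π * γ) * m = -w + π * (u * γ * m - 2 * w * u * π * Φ) := by
    linear_combination (-2 * w) * hu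
  refine ⟨-u * (2 * w * m - π * γ), u * γ * m - 2 * w * u * π * Φ, ?_, ?_⟩
  · rw [← e1]; ring
  · rw [← e1]
    linear_combination h3 + (u * (2 * w * m - π * γ) ^ 2) * hu

end alg

/-- cyclic vectors -/
theorem cyclic {k : Type} [Field k] (C : Matrix (Fin 3) (Fin 3) k)
    (hC : ∀ a : k, C.charpoly.eval a ≠ 0) {y : Fin 3 → k} (hy : y ≠ 0) {a b c : k}
    (h : a • y + b • C *ᵥ y + c • (C * C) *ᵥ y = 0) : a = 0 ∧ b = 0 ∧ c = 0 := by
  have hd : C.charpoly.natDegree = 3 := by simp [Matrix.charpoly_natDegree_eq_dim]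
  have hi : Irreducible C.charpoly := by
    rw [Polynomial.irreducible_iff_roots_eq_zero_of_degree_le_three (by omega) (by omega)]
    exact Multiset.eq_zero_of_forall_notMem fun a ha => hC a (isRoot_of_mem_roots ha)
  set r : k[X] := Polynomial.C c * X ^ 2 + Polynomial.C b * X + Polynomial.C a with hr
  have hr0 : r = 0 := by
    by_contra h0
    have h1 : ¬ C.charpoly ∣ r := fun h1 => by
      have h2 := natDegree_le_of_dvd h1 h0
      have h3 : r.natDegree ≤ 2 := natDegree_quadratic_le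
      omega
    obtain ⟨u, w, huw⟩ := (hi.coprime_iff_not_dvd).2 h1
    have h4 := congrArg (fun f => (aeval C f) *ᵥ y) huw
    have h5 : (aeval C r) *ᵥ y = 0 := by
      rw [← h, hr]
      simp only [map_add, map_mul, aeval_C, aeval_X, add_mulVec,
        Algebra.algebraMap_eq_smul_one, smul_mul_assoc, one_mul, smul_mulVec, one_mulVec, sq]
      abel
    simp only [map_add, map_mul, Matrix.aeval_self_charpoly, mul_zero, zero_add, map_one,
      one_mulVec, ← mulVec_mulVec, h5, mulVec_zero] at h4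
    exact hy h4.symm
  have h0 := congrArg (fun f => f.coeff 0) hr0
  have h1 := congrArg (fun f => f.coeff 1) hr0
  have h2 := congrArg (fun f => f.coeff 2) hr0
  simp [hr, coeff_X, coeff_C] at h0 h1 h2
  exact ⟨h0, h1, h2⟩

theorem bil_eq {k : Type} [CommRing k] (C : Matrix (Fin 3) (Fin 3) ℤ) (x y : Fin 3 → k) :
    bil C x y = x ⬝ᵥ (C.map (Int.castRingHom k)) *ᵥ y := by
  simp only [bil, dotProduct, mulVec, mul_sum, map_apply, eq_intCast]
  exact sum_congr rfl fun a _ => sum_congr rfl fun b _ => by ring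

theorem res_field {k : Type} [Field k] (C : Matrix (Fin 3) (Fin 3) ℤ)
    (hC : ∀ a : k, aeval a C.charpoly ≠ 0) {x y : Fin 3 → k} {i j : Fin 3} (hx : x i = 1)
    (hy : y j = 1) (h1 : bil 1 x y = 0) (h2 : bil C x y = 0) :
    bil (C * C) x y ≠ 0 ∧ bil C x (dir x j) ≠ 0 := by
  have hx0 : x ≠ 0 := fun h => by simp [h] at hx
  have hy0 : y ≠ 0 := fun h => by simp [h] at hy
  set A := C.map (Int.castRingHom k) with hA
  have hA1 : ∀ a : k, A.charpoly.eval a ≠ 0 := fun a => by
    rw [hA, Matrix.charpoly_map, eval_map]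
    exact hC a
  have hA2 : ∀ a : k, Aᵀ.charpoly.eval a ≠ 0 := by rwa [Matrix.charpoly_transpose]
  constructor
  · intro h3
    rw [bil_eq] at h1 h2 h3
    rw [Matrix.map_one _ (map_zero _) (map_one _), one_mulVec] at h1
    rw [Matrix.map_mul, ← hA] at h3
    rw [← hA] at h2
    have h4 : (Matrix.of ![y, A *ᵥ y, (A * A) *ᵥ y]) *ᵥ x = 0 := by
      ext l
      fin_cases l
      · exact (dotProduct_comm _ _).trans h1
      · exact (dotProduct_comm _ _).trans h2
      · exact (dotProduct_comm _ _).trans h3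
    have h5 := Matrix.exists_mulVec_eq_zero_iff.1 ⟨x, hx0, h4⟩
    obtain ⟨z, hz0, hz⟩ := Matrix.exists_vecMul_eq_zero_iff.2 h5
    have h6 := cyclic A hA1 hy0 (a := z 0) (b := z 1) (c := z 2) (by
      rw [← hz]
      ext l
      simp [vecMul, dotProduct, Fin.sum_univ_three])
    exact hz0 (by ext l; fin_cases l <;> simp [h6])
  · intro h3
    rw [← bil_swap, bil_eq, dotProduct_comm] at h2 h3
    have e : Cᵀ.map (Int.castRingHom k) = Aᵀ := rfl
    rw [e] at h2 h3
    set x' := Aᵀ *ᵥ x with hx'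
    have h4 : ∀ l m, x l * x' m = x m * x' l := by
      simp only [bil, Fin.sum_univ_three, Matrix.one_apply] at h1
      simp only [dotProduct, Fin.sum_univ_three] at h2 h3
      have g0 : x 1 * x' 2 = x 2 * x' 1 ∧ x 2 * x' 0 = x 0 * x' 2 ∧ x 0 * x' 1 = x 1 * x' 0 := by
        fin_cases j <;> simp [dir, cross_apply] at h1 h3 hy
        · exact ⟨by linear_combination -h3,
            by linear_combination (x 2) * h2 - (x' 2) * h1 - (y 1) * h3 -
              (x 2 * x' 0 - x 0 * x' 2) * hy,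
            by linear_combination (x' 1) * h1 - (x 1) * h2 - (y 2) * h3 -
              (x 0 * x' 1 - x 1 * x' 0) * hy⟩
        · exact ⟨by linear_combination (x' 2) * h1 - (x 2) * h2 - (y 0) * h3 -
              (x 1 * x' 2 - x 2 * x' 1) * hy,
            by linear_combination -h3,
            by linear_combination (x 0) * h2 - (x' 0) * h1 - (y 2) * h3 -
              (x 0 * x' 1 - x 1 * x' 0) * hy⟩
        · exact ⟨by linear_combination (x 1) * h2 - (x' 1) * h1 - (y 0) * h3 -
              (x 1 * x' 2 - x 2 * x' 1) * hy,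
            by linear_combination (x' 0) * h1 - (x 0) * h2 - (y 1) * h3 -
              (x 2 * x' 0 - x 0 * x' 2) * hy,
            by linear_combination -h3⟩
      intro l m
      fin_cases l <;> fin_cases m <;> simp [g0.1, g0.2.1, g0.2.2]
    have h6 := cyclic Aᵀ hA2 hx0 (a := x' i) (b := -1) (c := 0) (by
      ext l
      have := h4 i l
      rw [hx] at this
      simp only [← hx', Pi.add_apply, Pi.smul_apply, smul_eq_mul, Pi.zero_apply]
      linear_combination -this)
    simp at h6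

variable {K : Type} [Field K] {v : AbsoluteValue K ℝ}

/-- the valuation ring -/
def ints (hv : IsNonarchimedean v) : Subring K where
  carrier := {a | v a ≤ 1}
  mul_mem' := fun {a b} ha hb => by
    show v (a * b) ≤ 1
    rw [v.map_mul]; exact mul_le_one₀ ha (v.nonneg _) hb
  one_mem' := v.map_one.le
  add_mem' := fun ha hb => add_le hv ha hb
  zero_mem' := v.map_zero.trans_le zero_le_one
  neg_mem' := fun {a} ha => (v.map_neg a).trans_le ha

/-- its maximal ideal -/
def mx (hv : IsNonarchimedean v) : Ideal (ints hv) where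
  carrier := {a | v a.1 < 1}
  add_mem' := fun ha hb => add_lt hv ha hb
  zero_mem' := v.map_zero.trans_lt zero_lt_one
  smul_mem' := fun c a ha => by
    show v (c.1 * a.1) < 1
    rw [v.map_mul]; exact (mul_le_of_le_one_left (v.nonneg _) c.2).trans_lt ha

theorem mx_max (hv : IsNonarchimedean v) : (mx hv).IsMaximal := by
  refine Ideal.isMaximal_iff.2 ⟨fun h => ?_, fun J x _ hx hJ => ?_⟩
  · exact absurd (show v 1 < 1 from h) (by simp)
  · have h1 : v x.1 = 1 := le_antisymm x.2 (not_lt.1 hx)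
    have h0 : x.1 ≠ 0 := fun h => by simp [h] at h1
    have h2 : (⟨x.1⁻¹, show v x.1⁻¹ ≤ 1 by simp [h1]⟩ : ints hv) * x = 1 :=
      Subtype.ext (inv_mul_cancel₀ h0)
    exact h2 ▸ J.mul_mem_left _ hJ

/-- the residue field, in the form needed below -/
theorem residue (hv : IsNonarchimedean v) : ∃ (k : Type) (_ : Field k) (φ : ints hv →+* k),
    Function.Surjective φ ∧ ∀ a, φ a = 0 ↔ v a.1 < 1 := by
  have := mx_max hv
  exact ⟨ints hv ⧸ mx hv, Ideal.Quotient.field _, Ideal.Quotient.mk _,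
    Ideal.Quotient.mk_surjective, fun a => Ideal.Quotient.eq_zero_iff_mem⟩

theorem no_root (hv : IsNonarchimedean v) {k : Type} [Field k] (φ : ints hv →+* k)
    (h1 : Function.Surjective φ) (h2 : ∀ a, φ a = 0 ↔ v a.1 < 1) (χ : ℤ[X])
    (h : ∀ a : K, v a ≤ 1 → ¬ v (aeval a χ) < 1) (a : k) : aeval a χ ≠ 0 := by
  obtain ⟨b, rfl⟩ := h1 a
  intro h3
  refine h b.1 b.2 ?_
  have e1 : aeval (φ b) χ = φ (aeval b χ) := aeval_algHom_apply φ.toIntAlgHom b χ
  have e2 : aeval b.1 χ = (aeval b χ).1 := aeval_algHom_apply (ints hv).subtype.toIntAlgHom b χ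
  rw [e2, ← h2, ← e1, h3]

theorem res_val (hv : IsNonarchimedean v) (C : Matrix (Fin 3) (Fin 3) ℤ)
    (hC : ∀ a : K, v a ≤ 1 → ¬ v (aeval a C.charpoly) < 1) {x y : Fin 3 → K} {i j : Fin 3}
    (bx : ∀ a, v (x a) ≤ 1) (by' : ∀ a, v (y a) ≤ 1) (hx : x i = 1) (hy : y j = 1)
    (h1 : bil 1 x y = 0) (h2 : v (bil C x y) < 1) :
    v (bil (C * C) x y) = 1 ∧ v (bil C x (dir x j)) = 1 := by
  obtain ⟨k, _, φ, s1, s2⟩ := residue hv
  let x' : Fin 3 → ints hv := fun a => ⟨x a, bx a⟩
  let y' : Fin 3 → ints hv := fun a => ⟨y a, by' a⟩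
  have e : ∀ (A : Matrix (Fin 3) (Fin 3) ℤ) (z : Fin 3 → ints hv),
      (bil A x' z).1 = bil A x fun a => (z a).1 := fun A z => map_bil (ints hv).subtype A x' z
  have e' : (fun a => (dir x' j a).1) = dir x j := funext fun a => map_dir (ints hv).subtype x' j a
  have h := res_field C (no_root hv φ s1 s2 _ hC) (x := fun a => φ (x' a)) (y := fun a => φ (y' a))
    (i := i) (j := j) (by rw [show x' i = 1 from Subtype.ext hx, map_one])
    (by rw [show y' j = 1 from Subtype.ext hy, map_one])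
    (by rw [← map_bil, s2, e]; exact (congrArg v h1).trans_lt (by simp))
    (by rw [← map_bil, s2, e]; exact h2)
  rw [← funext (map_dir φ x' j), ← map_bil, ← map_bil, Ne, Ne, s2, s2, not_lt, not_lt] at h
  refine ⟨le_antisymm ?_ (h.1.trans_eq (by rw [e])), le_antisymm ?_ (h.2.trans_eq (by rw [e, e']))⟩
  · exact (congrArg v (e (C * C) y')).ge.trans (bil (C * C) x' y').2
  · rw [← e', ← e]; exact (bil C x' (dir x' j)).2

/-- one involution, as Lipschitz functions -/
theorem step_lip (hv : IsNonarchimedean v) {D ι : Type} (cc : ι → D → K)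
    (C : Matrix (Fin 3) (Fin 3) ℤ) (hC : ∀ a : K, v a ≤ 1 → ¬ v (aeval a C.charpoly) < 1)
    (F : Fin 3 → Fin 3 → Fin 3 → Fin 3 → ℤ) (c q π : ℤ) (hπ : v π < 1) {i j : Fin 3}
    (x y : Fin 3 → lip hv cc) (w : lip hv cc) (hx : x i = 1) (hy : y j = 1) (h1 : bil 1 x y = 0)
    (h2 : bil C x y = π * w) (h3 : w ^ 2 = c * bil (C * C) x y ^ 2 + q * biq F x y) :
    ∃ (h y' : Fin 3 → lip hv cc) (k w' : lip hv cc), (∀ a, y' a = y a + π * h a) ∧
      w' = -w + π * k ∧ y' j = 1 ∧ bil 1 x y' = 0 ∧ bil C x y' = π * w' ∧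
      w' ^ 2 = c * bil (C * C) x y' ^ 2 + q * biq F x y' := by
  obtain ⟨t, k, g1, g2⟩ := step C F (c : lip hv cc) q π x y (dir x j) w h2 h3 (by
    refine isUnit_lip hv cc _ fun P => ?_
    have g := (res_val hv C hC (x := fun a => ev hv cc P (x a)) (y := fun a => ev hv cc P (y a))
      (i := i) (j := j) (fun a => ev_le hv cc P _) (fun a => ev_le hv cc P _) (by simp [hx])
      (by simp [hy]) (by rw [← map_bil, h1, map_zero]) (by
        rw [← map_bil, h2, map_mul, map_intCast, v.map_mul]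
        exact (mul_le_of_le_one_right (v.nonneg _) (ev_le hv cc P _)).trans_lt hπ)).2
    rw [← funext (map_dir (ev hv cc P) x j), ← map_bil] at g
    rw [map_sub, sub_eq_add_neg]
    refine add_eq_one hv (by rw [map_pow, v.map_pow, g, one_pow]) ?_
    rw [v.map_neg, map_mul, v.map_mul, map_pow, map_intCast, v.map_pow]
    exact (mul_le_of_le_one_right (by positivity) (ev_le hv cc P _)).trans_lt
      (pow_lt_one₀ (v.nonneg _) hπ two_ne_zero))
  refine ⟨fun a => t * dir x j a, fun a => y a + π * t * dir x j a, k, _,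
    fun a => by ring, rfl, by simp [dir_self, hy], ?_, g1, g2⟩
  rw [bil_add, h1, bil_one_dir]; ring

/-- normalised points -/
structure Pt (v : AbsoluteValue K ℝ) (C : Matrix (Fin 3) (Fin 3) ℤ)
    (F : Fin 3 → Fin 3 → Fin 3 → Fin 3 → ℤ) (c q π : ℤ) (i j : Fin 3) where
  x : Fin 3 → K
  y : Fin 3 → K
  w : K
  bx : ∀ a, v (x a) ≤ 1
  by' : ∀ a, v (y a) ≤ 1
  bw : v w ≤ 1
  hx : x i = 1
  hy : y j = 1
  h1 : bil 1 x y = 0
  h2 : bil C x y = π * w
  h3 : w ^ 2 = c * bil (C * C) x y ^ 2 + q * biq F x y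

theorem infinite_Pt (hv : IsNonarchimedean v) (C : Matrix (Fin 3) (Fin 3) ℤ)
    (hC : ∀ a : K, v a ≤ 1 → ¬ v (aeval a C.charpoly) < 1)
    (F : Fin 3 → Fin 3 → Fin 3 → Fin 3 → ℤ) {c q π : ℤ} (hc : v c = 1) (hq : v q < 1)
    (hπ0 : (π : K) ≠ 0) (hπ : ∀ l : ℕ, l.Prime → v π < v l) {i j : Fin 3}
    (P₀ : Pt v C F c q π i j) : Infinite (Pt v C F c q π i j) := by
  by_contra hfin
  rw [not_infinite_iff_finite] at hfin
  have hπ2 : v π < v 2 := by simpa using hπ 2 Nat.prime_two
  have hπ1 : v π < 1 := (hπ 2 Nat.prime_two).trans_le hv.apply_natCast_le_one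
  let cc : Option (Fin 3 ⊕ Fin 3) → Pt v C F c q π i j → K := fun o P =>
    o.elim P.w (Sum.elim P.x P.y)
  have hinj : ∀ P Q, (∀ o, cc o P = cc o Q) → P = Q := fun P Q h => by
    have e1 : P.x = Q.x := funext fun a => h (some (Sum.inl a))
    have e2 : P.y = Q.y := funext fun a => h (some (Sum.inr a))
    have e3 : P.w = Q.w := h none
    cases P; cases Q
    simp only at e1 e2 e3
    subst e1 e2 e3
    rfl
  let x : Fin 3 → lip hv cc := fun a =>
    ⟨fun P => P.x a, fun P => P.bx a, fun _ _ _ _ h => h (some (Sum.inl a))⟩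
  let y : Fin 3 → lip hv cc := fun a =>
    ⟨fun P => P.y a, fun P => P.by' a, fun _ _ _ _ h => h (some (Sum.inr a))⟩
  let w : lip hv cc := ⟨fun P => P.w, fun P => P.bw, fun _ _ _ _ h => h none⟩
  have ext : ∀ f g : lip hv cc, (∀ P, ev hv cc P f = ev hv cc P g) → f = g :=
    fun f g h => Subtype.ext (funext h)
  obtain ⟨h, y', k, w', a1, a2, a3, a4, a5, a6⟩ := step_lip hv cc C hC F c q π hπ1 (i := i) (j := j)
    x y w (ext _ _ fun P => P.hx) (ext _ _ fun P => P.hy)
    (ext _ _ fun P => by rw [map_bil, map_zero]; exact P.h1)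
    (ext _ _ fun P => by rw [map_bil, map_mul, map_intCast]; exact P.h2)
    (ext _ _ fun P => by
      simp only [map_pow, map_add, map_mul, map_intCast, map_bil, map_biq]; exact P.h3)
  obtain ⟨h', x', k', w'', b1, b2, b3, b4, b5, b6⟩ := step_lip hv cc Cᵀ
    (by rwa [Matrix.charpoly_transpose]) (fun c d a b => F a b c d) c q π hπ1 (i := j) (j := i)
    y' x w' a3 (ext _ _ fun P => P.hx) (by rw [← bil_swap, transpose_one]; exact a4)
    (by rw [bil_swap]; exact a5) (by rw [← transpose_mul, bil_swap, biq_swap]; exact a6)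
  rw [← bil_swap, transpose_one] at b4
  rw [bil_swap] at b5
  rw [← transpose_mul, bil_swap, biq_swap] at b6
  let g : Pt v C F c q π i j → Pt v C F c q π i j := fun P =>
    { x := fun a => ev hv cc P (x' a)
      y := fun a => ev hv cc P (y' a)
      w := ev hv cc P w''
      bx := fun a => ev_le hv cc P _
      by' := fun a => ev_le hv cc P _
      bw := ev_le hv cc P _
      hx := by rw [b3, map_one]
      hy := by rw [a3, map_one]
      h1 := by rw [← map_bil, b4, map_zero]
      h2 := by rw [← map_bil, b5, map_mul, map_intCast]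
      h3 := by
        rw [← map_bil, ← map_biq, ← map_pow, b6]
        simp only [map_pow, map_add, map_mul, map_intCast] }
  have hg : Cl v cc (v π) g := Cl.of_lip hv fun o => by
    rcases o with _ | a | a
    · refine ⟨k' - k, fun P => ?_⟩
      show ev hv cc P w'' = ev hv cc P w + _
      rw [b2, a2]
      simp only [map_add, map_neg, map_mul, map_intCast, map_sub]
      ring
    · refine ⟨h' a, fun P => ?_⟩
      show ev hv cc P (x' a) = ev hv cc P (x a) + _
      rw [b1, map_add, map_mul, map_intCast]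
    · refine ⟨h a, fun P => ?_⟩
      show ev hv cc P (y' a) = ev hv cc P (y a) + _
      rw [a1, map_add, map_mul, map_intCast]
  obtain ⟨Q, hQ⟩ := hg.exists_fixed hv hinj (v.nonneg _) hπ P₀
  have e1 : (fun a => ev hv cc Q (y' a)) = Q.y := congrArg Pt.y hQ
  have e2 := congrArg (ev hv cc Q) a5
  rw [map_bil, e1, map_mul, map_intCast, a2, map_add, map_neg, map_mul, map_intCast] at e2
  have e3 : (2 : K) * Q.w = π * ev hv cc Q k := by
    have := mul_left_cancel₀ hπ0 (Q.h2.symm.trans e2)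
    change Q.w = -Q.w + _ at this
    linear_combination this
  have e4 := (res_val hv C hC Q.bx Q.by' Q.hx Q.hy Q.h1 (by
    rw [Q.h2, v.map_mul]
    exact (mul_le_of_le_one_right (v.nonneg _) Q.bw).trans_lt hπ1)).1
  have e5 : v (Q.w ^ 2) = 1 := by
    rw [Q.h3]
    refine add_eq_one hv (by rw [v.map_mul, v.map_pow, hc, e4]; norm_num) ?_
    have : v (biq F Q.x Q.y) ≤ 1 := (map_biq (ev hv cc Q) F x y) ▸ ev_le hv cc Q _
    rw [v.map_mul]
    exact (mul_le_of_le_one_right (v.nonneg _) this).trans_lt hq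
  rw [v.map_pow, pow_eq_one_iff_of_nonneg (v.nonneg _) two_ne_zero] at e5
  have e6 := congrArg v e3
  rw [v.map_mul, v.map_mul, e5, mul_one] at e6
  exact absurd (e6.trans_le (mul_le_of_le_one_right (v.nonneg _) (ev_le hv cc Q k))) (not_le.2 hπ2)

end Pool.Agent.MP_a2aa7d_nt
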